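import Mathlib.Algebra.BigOperators.Group.Finset.Basic
import Mathlib.Data.Fintype.Basic
import Mathlib.Data.Nat.Bits
import Mathlib.Logic.Relation

/-!
Chip-firing on finite directed multigraphs and the chip-firing reachability problem.
-/

namespace Pool.Agent.Work.MP_5100e0_lc

/-- Out-degree of `v`, counted with multiplicity; `a v w` is the number of edges from `v` to
`w`. -/
def outdeg {V : Type} [Fintype V] (a : V → V → ℕ) (v : V) : ℕ := ∑ w, a v w

/-- Firing `v`: one chip is sent along each edge leaving `v`, so that `v` loses `outdeg a v`
chips. -/
def fire {V : Type} [Fintype V] [DecidableEq V] (a : V → V → ℕ) (v : V) (x : V → ℤ) : V → ℤ :=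
  fun w => x w + (a v w : ℤ) - (if w = v then (outdeg a v : ℤ) else 0)

/-- One legal move: some vertex `v` is fired and has a nonnegative number of chips afterwards. -/
def LegalMove {V : Type} [Fintype V] [DecidableEq V] (a : V → V → ℕ) (x x' : V → ℤ) : Prop :=
  ∃ v, x' = fire a v x ∧ 0 ≤ x' v

/-- `y` is reachable from `x` by a legal game (a finite, possibly empty, sequence of legal
moves). -/
def Reach {V : Type} [Fintype V] [DecidableEq V] (a : V → V → ℕ) (x y : V → ℤ) : Prop :=
  Relation.ReflTransGen (LegalMove a) x y

/-- An instance of the chip-firing reachability problem: a finite directed multigraph without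
loops on the vertices `0, …, n - 1`, with `mult v w` parallel edges from `v` to `w`, and two
chip-distributions. -/
structure Inst where
  n : ℕ
  mult : Fin n → Fin n → ℕ
  noLoop : ∀ v, mult v v = 0
  x : Fin n → ℤ
  y : Fin n → ℤ

/-- The yes-instances of the chip-firing reachability problem. -/
def Reachable : Set Inst := {I | Reach I.mult I.x I.y}

/-- The instances whose digraph is simple, i.e. has no parallel edges. -/
def SimpleDigraph : Set Inst := {I | ∀ v w, I.mult v w ≤ 1}

/-- The alphabet for writing instances: two binary digits, a minus sign, and an end-of-number
mark. -/
inductive Sym | zero | one | minus | stop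
deriving DecidableEq

/-- A natural number, written in binary (least significant digit first) and ended by `stop`. -/
def encNat (n : ℕ) : List Sym :=
  n.bits.map (fun b => if b then Sym.one else Sym.zero) ++ [Sym.stop]

/-- An integer, written in binary with an optional minus sign. -/
def encInt (z : ℤ) : List Sym :=
  if z < 0 then Sym.minus :: encNat z.natAbs else encNat z.natAbs

/-- The string of an instance: the number of vertices, the matrix of edge multiplicities row by
row, then the two chip-distributions; all numbers are written in binary. -/
def encInst (I : Inst) : List Sym :=
  encNat I.n ++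
    (List.finRange I.n).flatMap (fun v => (List.finRange I.n).flatMap (fun w =>
      encNat (I.mult v w))) ++
    (List.finRange I.n).flatMap (fun v => encInt (I.x v)) ++
    (List.finRange I.n).flatMap (fun v => encInt (I.y v))

end Pool.Agent.Work.MP_5100e0_lc
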