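import Pool.Agent.Work.MP_5100e0_lc.Defs
import Mathlib.Data.Nat.Digits.Lemmas
import Mathlib.Tactic

/-!
The string encoding of instances is injective.
-/

namespace Pool.Agent.Work.MP_5100e0_lc

/-- An encoding in which no code is the beginning of another one. -/
def SelfDelim {α : Type} (e : α → List Sym) : Prop :=
  ∀ a b r s, e a ++ r = e b ++ s → a = b ∧ r = s

theorem bits_injective : Function.Injective Nat.bits := by
  intro m n h
  have h1 := Nat.digits_two_eq_bits m
  have h2 := Nat.digits_two_eq_bits n
  rw [h] at h1
  exact Nat.digits_inj_iff.1 (h1.trans h2.symm)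

theorem selfDelim_encNat : SelfDelim encNat := by
  have key : ∀ (u v : List Bool) (r s : List Sym),
      u.map (fun b => if b then Sym.one else Sym.zero) ++ (Sym.stop :: r) =
      v.map (fun b => if b then Sym.one else Sym.zero) ++ (Sym.stop :: s) → u = v ∧ r = s := by
    intro u
    induction u with
    | nil =>
      intro v r s h
      cases v with
      | nil => simpa using h
      | cons b v => cases b <;> simp at h
    | cons a u ih =>
      intro v r s h
      cases v with
      | nil => cases a <;> simp at h
      | cons b v =>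
        simp only [List.map_cons, List.cons_append, List.cons.injEq] at h
        obtain ⟨h1, h2⟩ := ih v r s h.2
        refine ⟨?_, h2⟩
        rw [h1]
        have : a = b := by
          cases a <;> cases b <;> simp at h <;> rfl
        rw [this]
  intro m n r s h
  unfold encNat at h
  obtain ⟨h1, h2⟩ := key m.bits n.bits r s (by simpa using h)
  exact ⟨bits_injective h1, h2⟩

theorem encNat_ne_minus (n : ℕ) (r s : List Sym) : encNat n ++ r ≠ Sym.minus :: s := by
  unfold encNat
  intro h
  cases hb : n.bits with
  | nil => rw [hb] at h; simp at h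
  | cons b l => rw [hb] at h; cases b <;> simp at h

theorem selfDelim_encInt : SelfDelim encInt := by
  intro m n r s h
  unfold encInt at h
  by_cases hm : m < 0
  · by_cases hn : n < 0
    · rw [if_pos hm, if_pos hn] at h
      simp only [List.cons_append, List.cons.injEq, true_and] at h
      obtain ⟨h1, h2⟩ := selfDelim_encNat _ _ _ _ h
      exact ⟨by omega, h2⟩
    · rw [if_pos hm, if_neg hn] at h
      exact absurd h.symm (encNat_ne_minus _ _ _)
  · by_cases hn : n < 0
    · rw [if_neg hm, if_pos hn] at h
      exact absurd h (encNat_ne_minus _ _ _)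
    · rw [if_neg hm, if_neg hn] at h
      obtain ⟨h1, h2⟩ := selfDelim_encNat _ _ _ _ h
      exact ⟨by omega, h2⟩

theorem selfDelim_flatMap {ι α : Type} {e : ι → α → List Sym} (he : ∀ i, SelfDelim (e i))
    (l : List ι) (F G : ι → α) (r s : List Sym)
    (h : l.flatMap (fun i => e i (F i)) ++ r = l.flatMap (fun i => e i (G i)) ++ s) :
    (∀ i ∈ l, F i = G i) ∧ r = s := by
  induction l with
  | nil => exact ⟨by simp, by simpa using h⟩
  | cons i l ih =>
    simp only [List.flatMap_cons, List.append_assoc] at h
    obtain ⟨h1, h2⟩ := he i _ _ _ _ h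
    obtain ⟨h3, h4⟩ := ih h2
    refine ⟨?_, h4⟩
    intro j hj
    rcases List.mem_cons.1 hj with rfl | hj
    · exact h1
    · exact h3 j hj

theorem encInst_injective : Function.Injective encInst := by
  intro I J h
  obtain ⟨n, a, ha, x, y⟩ := I
  obtain ⟨n', a', ha', x', y'⟩ := J
  unfold encInst at h
  simp only [List.append_assoc] at h
  obtain ⟨rfl, h⟩ := selfDelim_encNat _ _ _ _ h
  have hrow : ∀ _ : Fin n, SelfDelim (fun f : Fin n → ℕ =>
      (List.finRange n).flatMap (fun w => encNat (f w))) := by
    intro _ f g r s h
    obtain ⟨h1, h2⟩ := selfDelim_flatMap (e := fun _ : Fin n => encNat)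
      (fun _ => selfDelim_encNat) _ f g r s h
    exact ⟨funext fun i => h1 i (List.mem_finRange i), h2⟩
  obtain ⟨h1, h⟩ := selfDelim_flatMap (e := fun _ : Fin n => fun f : Fin n → ℕ =>
      (List.finRange n).flatMap (fun w => encNat (f w))) hrow (List.finRange n) a a' _ _ h
  have e1 : a = a' := funext fun i => h1 i (List.mem_finRange i)
  obtain ⟨h2, h⟩ := selfDelim_flatMap (e := fun _ : Fin n => encInt)
      (fun _ => selfDelim_encInt) (List.finRange n) x x' _ _ h
  have e2 : x = x' := funext fun i => h2 i (List.mem_finRange i)
  have h' : (List.finRange n).flatMap (fun v => encInt (y v)) ++ [] =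
      (List.finRange n).flatMap (fun v => encInt (y' v)) ++ [] := by simpa using h
  obtain ⟨h3, _⟩ := selfDelim_flatMap (e := fun _ : Fin n => encInt)
      (fun _ => selfDelim_encInt) (List.finRange n) y y' _ _ h'
  have e3 : y = y' := funext fun i => h3 i (List.mem_finRange i)
  subst e1 e2 e3
  rfl

end Pool.Agent.Work.MP_5100e0_lc
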