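import Pool.Agent.Work.MP_5100e0_lc.Subdiv
import Pool.Agent.Work.TMLib.CNF
import Mathlib.Tactic

/-!
The multigraph attached to a CNF formula.
-/

namespace Pool.Agent.Work.MP_5100e0_lc

open TMLib Finset

set_option linter.unusedSimpArgs false
set_option linter.unusedSectionVars false

/-- Names of the vertices of the multigraph. -/
abbrev BV := ℕ × ℕ × Bool

def vZ (j : ℕ) : BV := (0, j, false)
def vY (j : ℕ) : BV := (1, j, false)
def vB (j : ℕ) (s : Bool) : BV := (2, j, s)
def vA (c : ℕ) : BV := (3, c, false)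

/-- One plus the number of occurrences of literals. -/
def EE (φ : CNF) : ℕ := φ.flatten.length + 1

def KK (k : ℕ) (φ : CNF) (j : ℕ) : ℕ := (k + 1 - j) * EE φ + 1

/-- Multiplicities of the edges of the multigraph. -/
def gm (k : ℕ) (φ : CNF) (v w : BV) : ℕ :=
  if v.1 = 0 then
    if w.1 = 0 then (if w.2.1 = v.2.1 + 1 then KK k φ w.2.1 else 0)
    else if w.1 = 1 then (if w.2.1 = v.2.1 then KK k φ (v.2.1 + 1) else 0)
    else if w.1 = 2 then (if w.2.2 = true ∧ v.2.1 = w.2.1 + 1 then 2 * EE φ else 0)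
    else (if v.2.1 = 0 then EE φ else 0)
  else if v.1 = 1 then
    if w.1 = 0 then (if w.2.1 = 0 then 2 else 0)
    else if w.1 = 2 then (if v.2.1 < w.2.1 then EE φ else
      if v.2.1 = w.2.1 ∧ w.2.2 = false then 2 * EE φ else 0)
    else 0
  else if v.1 = 2 then
    if w.1 = 0 then (if w.2.1 = 0 then
      (φ.flatten.filter (fun l => !decide (l.1 = v.2.1 ∧ l.2 = v.2.2))).length + 1 else 0)
    else if w.1 = 3 then
      ((φ.getD w.2.1 []).filter (fun l => decide (l.1 = v.2.1 ∧ l.2 = v.2.2))).length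
    else 0
  else if v.1 = 3 then
    if w.1 = 0 then (if w.2.1 = 0 then EE φ + (φ.getD v.2.1 []).length else 0) else 0
  else 0

/-- Number of occurrences of the literal `(j, s)` in `c`. -/
def occ (c : List (ℕ × Bool)) (j : ℕ) (s : Bool) : ℕ :=
  (c.filter (fun l => decide (l.1 = j ∧ l.2 = s))).length

section
variable (k : ℕ) (φ : CNF) (i j c d : ℕ) (s t : Bool)

@[simp] theorem gm_ZZ : gm k φ (vZ i) (vZ j) = if j = i + 1 then KK k φ j else 0 := by
  simp [gm, vZ]
@[simp] theorem gm_ZY : gm k φ (vZ i) (vY j) = if j = i then KK k φ (i + 1) else 0 := by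
  simp [gm, vZ, vY]
theorem gm_ZB : gm k φ (vZ i) (vB j s) =
    if s = true ∧ i = j + 1 then 2 * EE φ else 0 := by simp [gm, vZ, vB]
@[simp] theorem gm_ZBt : gm k φ (vZ i) (vB j true) =
    if i = j + 1 then 2 * EE φ else 0 := by simp [gm_ZB]
@[simp] theorem gm_ZBf : gm k φ (vZ i) (vB j false) = 0 := by simp [gm_ZB]
@[simp] theorem gm_ZA : gm k φ (vZ i) (vA c) = if i = 0 then EE φ else 0 := by
  simp [gm, vZ, vA]
@[simp] theorem gm_YZ : gm k φ (vY i) (vZ j) = if j = 0 then 2 else 0 := by
  simp [gm, vZ, vY]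
@[simp] theorem gm_YY : gm k φ (vY i) (vY j) = 0 := by
  simp [gm, vY]
theorem gm_YB : gm k φ (vY i) (vB j s) =
    if i < j then EE φ else if i = j ∧ s = false then 2 * EE φ else 0 := by
  by_cases h1 : i < j
  · simp [gm, vY, vB, h1]
  · by_cases h2 : i = j ∧ s = false
    · simp [gm, vY, vB, h2]
    · simp [gm, vY, vB, h1, h2]
@[simp] theorem gm_YBt : gm k φ (vY i) (vB j true) =
    if i < j then EE φ else 0 := by simp [gm_YB]
@[simp] theorem gm_YBf : gm k φ (vY i) (vB j false) =
    if i < j then EE φ else if i = j then 2 * EE φ else 0 := by simp [gm_YB]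
@[simp] theorem gm_YA : gm k φ (vY i) (vA c) = 0 := by
  simp [gm, vY, vA]
@[simp] theorem gm_BZ : gm k φ (vB i s) (vZ j) = if j = 0 then
      (φ.flatten.filter (fun l => !decide (l.1 = i ∧ l.2 = s))).length + 1 else 0 := by
  simp [gm, vZ, vB]
@[simp] theorem gm_BY : gm k φ (vB i s) (vY j) = 0 := by
  simp [gm, vY, vB]
@[simp] theorem gm_BB : gm k φ (vB i s) (vB j t) = 0 := by
  simp [gm, vB]
@[simp] theorem gm_BA : gm k φ (vB i s) (vA c) = occ (φ.getD c []) i s := by
  simp [gm, vB, vA, occ]
@[simp] theorem gm_AZ : gm k φ (vA c) (vZ j) =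
    if j = 0 then EE φ + (φ.getD c []).length else 0 := by
  simp [gm, vZ, vA]
@[simp] theorem gm_AY : gm k φ (vA c) (vY j) = 0 := by
  simp [gm, vY, vA]
@[simp] theorem gm_AB : gm k φ (vA c) (vB j s) = 0 := by
  simp [gm, vA, vB]
@[simp] theorem gm_AA : gm k φ (vA c) (vA d) = 0 := by
  simp [gm, vA]
end

theorem gm_self (k : ℕ) (φ : CNF) (v : BV) : gm k φ v v = 0 := by
  rcases v with ⟨t, j, s⟩
  unfold gm
  split_ifs <;> simp_all

/-- The vertices of the multigraph. -/
def baseOf (k m : ℕ) : List BV :=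
  (List.range (k + 2)).map vZ ++ (List.range (k + 1)).map vY ++
    (List.range k).flatMap (fun j => [vB j true, vB j false]) ++ (List.range m).map vA

theorem mem_baseOf {k m : ℕ} {v : BV} : v ∈ baseOf k m ↔
    (∃ j < k + 2, v = vZ j) ∨ (∃ j < k + 1, v = vY j) ∨ (∃ j < k, ∃ s, v = vB j s) ∨
      (∃ c < m, v = vA c) := by
  simp only [baseOf, List.mem_append, List.mem_map, List.mem_flatMap, List.mem_range,
    List.mem_cons, List.not_mem_nil, or_false]
  constructor
  · rintro (((⟨j, hj, rfl⟩ | ⟨j, hj, rfl⟩) | ⟨j, hj, (rfl | rfl)⟩) | ⟨c, hc, rfl⟩)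
    · exact .inl ⟨j, hj, rfl⟩
    · exact .inr (.inl ⟨j, hj, rfl⟩)
    · exact .inr (.inr (.inl ⟨j, hj, true, rfl⟩))
    · exact .inr (.inr (.inl ⟨j, hj, false, rfl⟩))
    · exact .inr (.inr (.inr ⟨c, hc, rfl⟩))
  · rintro (⟨j, hj, rfl⟩ | ⟨j, hj, rfl⟩ | ⟨j, hj, s, rfl⟩ | ⟨c, hc, rfl⟩)
    · exact .inl (.inl (.inl ⟨j, hj, rfl⟩))
    · exact .inl (.inl (.inr ⟨j, hj, rfl⟩))
    · cases s
      · exact .inl (.inr ⟨j, hj, .inr rfl⟩)
      · exact .inl (.inr ⟨j, hj, .inl rfl⟩)
    · exact .inr ⟨c, hc, rfl⟩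

theorem nodup_baseOf (k m : ℕ) : (baseOf k m).Nodup := by
  unfold baseOf
  rw [List.nodup_append, List.nodup_append, List.nodup_append]
  refine ⟨⟨⟨?_, ?_, ?_⟩, ?_, ?_⟩, ?_, ?_⟩
  · exact List.nodup_range.map (fun i j h => by simpa [vZ] using h)
  · exact List.nodup_range.map (fun i j h => by simpa [vY] using h)
  · intro a ha b hb
    simp only [List.mem_map] at ha hb
    obtain ⟨i, _, rfl⟩ := ha
    obtain ⟨j, _, rfl⟩ := hb
    simp [vZ, vY]
  · rw [List.nodup_flatMap]
    refine ⟨fun j _ => by simp [vB], ?_⟩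
    refine List.nodup_range.imp ?_
    intro i j hne
    simp only [Function.onFun, List.disjoint_left]
    intro t ht ht'
    simp only [List.mem_cons, List.not_mem_nil, or_false] at ht ht'
    rcases ht with rfl | rfl <;> rcases ht' with h | h <;> simp [vB] at h <;> exact hne h
  · intro a ha b hb
    simp only [List.mem_append, List.mem_map, List.mem_flatMap, List.mem_cons,
      List.not_mem_nil, or_false] at ha hb
    obtain ⟨j, _, hb⟩ := hb
    rcases ha with ⟨i, _, rfl⟩ | ⟨i, _, rfl⟩ <;> rcases hb with rfl | rfl <;> simp [vZ, vY, vB]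
  · exact List.nodup_range.map (fun i j h => by simpa [vA] using h)
  · intro a ha b hb
    simp only [List.mem_append, List.mem_map, List.mem_flatMap, List.mem_cons,
      List.not_mem_nil, or_false] at ha hb
    obtain ⟨c, _, rfl⟩ := hb
    rcases ha with (⟨i, _, rfl⟩ | ⟨i, _, rfl⟩) | ⟨i, _, (rfl | rfl)⟩ <;> simp [vZ, vY, vB, vA]

theorem sum_map_range {M : Type} [AddCommMonoid M] (f : ℕ → M) (n : ℕ) :
    ((List.range n).map f).sum = ∑ i ∈ range n, f i := by
  induction n with
  | zero => simp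
  | succ n ih => simp [List.range_succ, Finset.sum_range_succ, ih]

theorem sum_baseOf {M : Type} [AddCommMonoid M] (k m : ℕ) (f : BV → M) :
    ((baseOf k m).map f).sum = ∑ j ∈ range (k + 2), f (vZ j) + ∑ j ∈ range (k + 1), f (vY j) +
      ∑ j ∈ range k, (f (vB j true) + f (vB j false)) + ∑ c ∈ range m, f (vA c) := by
  have h1 : ∀ (l : List ℕ), ((l.flatMap (fun j => [vB j true, vB j false])).map f).sum =
      (l.map (fun j => f (vB j true) + f (vB j false))).sum := by
    intro l
    induction l with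
    | nil => simp
    | cons a l ih =>
      simp only [List.flatMap_cons, List.map_append, List.sum_append, ih, List.map_cons,
        List.sum_cons, List.map_nil, List.sum_nil, add_zero]
  simp only [baseOf, List.map_append, List.sum_append, h1, List.map_map]
  rw [sum_map_range, sum_map_range, sum_map_range, sum_map_range]
  rfl

theorem occ_add (c : List (ℕ × Bool)) (j : ℕ) (s : Bool) :
    (c.filter (fun l => !decide (l.1 = j ∧ l.2 = s))).length + occ c j s = c.length := by
  induction c with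
  | nil => simp [occ]
  | cons l c ih =>
    simp only [occ, List.filter_cons] at ih ⊢
    by_cases h : l.1 = j ∧ l.2 = s
    · simp only [h, and_self, decide_true, Bool.not_true, Bool.false_eq_true, if_false, if_true,
        List.length_cons] at ih ⊢
      omega
    · simp only [h, decide_false, Bool.not_false, if_true, Bool.false_eq_true, if_false,
        List.length_cons] at ih ⊢
      omega

theorem occ_flatten (φ : CNF) (j : ℕ) (s : Bool) :
    ∑ c ∈ range φ.length, occ (φ.getD c []) j s = occ φ.flatten j s := by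
  induction φ with
  | nil => simp [occ]
  | cons c φ ih =>
    rw [List.length_cons, Finset.sum_range_succ']
    simp only [List.getD_cons_succ, List.getD_cons_zero, ih]
    simp [occ]
    omega

theorem sum_occ {k : ℕ} {c : List (ℕ × Bool)} (hc : ∀ l ∈ c, l.1 < k) (G : ℕ → Bool → ℤ) :
    ∑ j ∈ range k, ((occ c j true : ℤ) * G j true + (occ c j false : ℤ) * G j false) =
      (c.map (fun l => G l.1 l.2)).sum := by
  induction c with
  | nil => simp [occ]
  | cons l c ih =>
    have h1 := ih (fun l' hl' => hc l' (List.mem_cons_of_mem _ hl'))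
    have h2 : ∀ j s, (occ (l :: c) j s : ℤ) = (occ c j s : ℤ) +
        if l.1 = j ∧ l.2 = s then 1 else 0 := by
      intro j s
      simp only [occ, List.filter_cons]
      by_cases h : l.1 = j ∧ l.2 = s
      · simp [h]
      · simp [h]
    simp only [h2, List.map_cons, List.sum_cons, ← h1]
    have h3 : ∀ j, ((occ c j true : ℤ) + if l.1 = j ∧ l.2 = true then 1 else 0) * G j true +
        ((occ c j false : ℤ) + if l.1 = j ∧ l.2 = false then 1 else 0) * G j false =
        (if l.1 = j then G l.1 l.2 else 0) +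
        ((occ c j true : ℤ) * G j true + (occ c j false : ℤ) * G j false) := by
      intro j
      by_cases h : l.1 = j
      · subst h
        cases hl : l.2 <;> simp [hl] <;> ring
      · simp [h]
    simp only [h3, Finset.sum_add_distrib]
    rw [Finset.sum_ite_eq]
    simp [hc l (List.mem_cons_self ..)]

end Pool.Agent.Work.MP_5100e0_lc
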