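import Pool.Agent.Work.MP_5100e0_lc.Gadget
import Mathlib.Tactic

/-!
Degrees and flows in the multigraph attached to a CNF formula.
-/

namespace Pool.Agent.Work.MP_5100e0_lc

open TMLib Finset

set_option linter.unusedSimpArgs false
set_option linter.unusedSectionVars false

section degrees
variable (k : ℕ) (φ : CNF)

theorem KK_last : KK k φ (k + 1) = 1 := by simp [KK]

theorem KK_succ {j : ℕ} (hj : j < k + 1) : KK k φ j = KK k φ (j + 1) + EE φ := by
  simp only [KK]
  have : k + 1 - j = (k + 1 - (j + 1)) + 1 := by omega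
  rw [this]
  ring

theorem deg_Z0 : degOf (baseOf k φ.length) (gm k φ) (vZ 0) = 2 * KK k φ 1 + φ.length * EE φ := by
  unfold degOf
  rw [sum_baseOf]
  simp only [gm_ZZ, gm_ZY, gm_ZBt, gm_ZBf, gm_ZA]
  simp [Finset.sum_ite_eq']
  ring

theorem deg_Zs {i : ℕ} (hi : i < k) :
    degOf (baseOf k φ.length) (gm k φ) (vZ (i + 1)) = 2 * KK k φ (i + 1) := by
  unfold degOf
  rw [sum_baseOf]
  simp only [gm_ZZ, gm_ZY, gm_ZBt, gm_ZBf, gm_ZA]
  rw [KK_succ k φ (by omega : i + 1 < k + 1)]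
  simp [Finset.sum_ite_eq', hi]
  ring

theorem deg_Zlast : degOf (baseOf k φ.length) (gm k φ) (vZ (k + 1)) = 0 := by
  unfold degOf
  rw [sum_baseOf]
  simp only [gm_ZZ, gm_ZY, gm_ZBt, gm_ZBf, gm_ZA]
  simp [Finset.sum_ite_eq']

theorem sum_ge_aux (E i : ℕ) (k : ℕ) (h : i ≤ k) :
    ∑ j ∈ range k, ((if i < j then E else 0) +
      (if i < j then E else if i = j then 2 * E else 0)) = 2 * E * (k - i) := by
  induction k with
  | zero => simp
  | succ k ih =>
    rw [Finset.sum_range_succ]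
    rcases Nat.lt_or_ge k i with h1 | h1
    · have : i = k + 1 := by omega
      subst this
      rw [if_neg (by omega), if_neg (by omega), if_neg (by omega)]
      simp only [Nat.sub_self, Nat.mul_zero, Nat.add_zero]
      apply Finset.sum_eq_zero
      intro j hj
      simp only [Finset.mem_range] at hj
      rw [if_neg (by omega), if_neg (by omega), if_neg (by omega)]
      rfl
    · rw [ih h1]
      have h2 : k + 1 - i = (k - i) + 1 := by omega
      rw [h2]
      rcases Nat.lt_or_ge i k with h3 | h3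
      · simp [h3]
        ring
      · have : i = k := by omega
        subst this
        simp

theorem deg_Y {i : ℕ} (hi : i < k + 1) :
    degOf (baseOf k φ.length) (gm k φ) (vY i) = 2 * KK k φ (i + 1) := by
  unfold degOf
  rw [sum_baseOf]
  simp only [gm_YZ, gm_YY, gm_YBt, gm_YBf, gm_YA]
  rw [sum_ge_aux (EE φ) i k (by omega)]
  simp only [KK]
  have h2 : k + 1 - (i + 1) = k - i := by omega
  rw [h2]
  simp [Finset.sum_ite_eq']
  ring

theorem deg_B {j : ℕ} (s : Bool) :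
    degOf (baseOf k φ.length) (gm k φ) (vB j s) = EE φ := by
  unfold degOf
  rw [sum_baseOf]
  simp only [gm_BZ, gm_BY, gm_BB, gm_BA]
  rw [occ_flatten]
  have := occ_add φ.flatten j s
  simp only [Finset.sum_ite_eq', Finset.mem_range, EE, Finset.sum_const_zero, add_zero]
  rw [if_pos (by omega)]
  omega

theorem deg_A (c : ℕ) :
    degOf (baseOf k φ.length) (gm k φ) (vA c) = EE φ + (φ.getD c []).length := by
  unfold degOf
  rw [sum_baseOf]
  simp only [gm_AZ, gm_AY, gm_AB, gm_AA]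
  simp only [Finset.sum_ite_eq', Finset.mem_range]
  simp

end degrees

section inflow
variable (k : ℕ) (φ : CNF) (g : BV → ℕ)

/-- Inflow. -/
def infl (w : BV) : ℤ := ((baseOf k φ.length).map (fun v => (gm k φ v w : ℤ) * g v)).sum

theorem mchips_eq (x : BV → ℤ) (w : BV) : mchips (baseOf k φ.length) (gm k φ) x g w =
    x w + infl k φ g w - (degOf (baseOf k φ.length) (gm k φ) w : ℤ) * g w := rfl

theorem in_Z0 : infl k φ g (vZ 0) = ∑ j ∈ range (k + 1), 2 * (g (vY j) : ℤ) +
    ∑ j ∈ range k, (((EE φ : ℤ) - occ φ.flatten j true) * g (vB j true) +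
      ((EE φ : ℤ) - occ φ.flatten j false) * g (vB j false)) +
    ∑ c ∈ range φ.length, ((EE φ : ℤ) + (φ.getD c []).length) * g (vA c) := by
  unfold infl
  rw [sum_baseOf]
  simp only [gm_ZZ, gm_YZ, gm_BZ, gm_AZ]
  have h1 : ∀ j s, (((φ.flatten.filter (fun l => !decide (l.1 = j ∧ l.2 = s))).length + 1 : ℕ) : ℤ)
      = (EE φ : ℤ) - occ φ.flatten j s := by
    intro j s
    have := occ_add φ.flatten j s
    simp only [EE]
    omega
  simp only [if_true, h1]
  have h2 : ∑ j ∈ range (k + 2), (((if 0 = j + 1 then KK k φ 0 else 0 : ℕ) : ℤ) * (g (vZ j) : ℤ)) = 0 := by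
    apply Finset.sum_eq_zero
    intro j _
    simp
  rw [h2]
  push_cast
  simp

theorem in_Zs {j : ℕ} (hj : j < k + 1) :
    infl k φ g (vZ (j + 1)) = (KK k φ (j + 1) : ℤ) * g (vZ j) := by
  unfold infl
  rw [sum_baseOf]
  simp only [gm_ZZ, gm_YZ, gm_BZ, gm_AZ]
  have h2 : ∀ i, (((if j + 1 = i + 1 then KK k φ (j + 1) else 0 : ℕ) : ℤ) * (g (vZ i) : ℤ)) =
      if j = i then (KK k φ (j + 1) : ℤ) * g (vZ i) else 0 := by
    intro i
    by_cases h : j = i <;> simp [h]
  simp only [h2, Finset.sum_ite_eq, Finset.mem_range]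
  simp
  intro h
  omega

theorem in_Y {j : ℕ} (hj : j < k + 1) :
    infl k φ g (vY j) = (KK k φ (j + 1) : ℤ) * g (vZ j) := by
  unfold infl
  rw [sum_baseOf]
  simp only [gm_ZY, gm_YY, gm_BY, gm_AY]
  have h2 : ∀ i, (((if j = i then KK k φ (i + 1) else 0 : ℕ) : ℤ) * (g (vZ i) : ℤ)) =
      if j = i then (KK k φ (i + 1) : ℤ) * g (vZ i) else 0 := by
    intro i
    by_cases h : j = i <;> simp [h]
  simp only [h2, Finset.sum_ite_eq, Finset.mem_range]
  simp
  intro h
  omega

theorem in_Bt {j : ℕ} (hj : j < k) :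
    infl k φ g (vB j true) = 2 * (EE φ : ℤ) * g (vZ (j + 1)) +
      (EE φ : ℤ) * ∑ i ∈ range j, (g (vY i) : ℤ) := by
  unfold infl
  rw [sum_baseOf]
  simp only [gm_ZBt, gm_ZBf, gm_YBt, gm_YBf, gm_BB, gm_AB]
  have h2 : ∀ i, (((if i = j + 1 then 2 * EE φ else 0 : ℕ) : ℤ) * (g (vZ i) : ℤ)) =
      if i = j + 1 then 2 * (EE φ : ℤ) * g (vZ i) else 0 := by
    intro i
    by_cases h : i = j + 1 <;> simp [h]
  have h3 : ∀ i, (((if i < j then EE φ else 0 : ℕ) : ℤ)
      * (g (vY i) : ℤ)) = if i < j then (EE φ : ℤ) * g (vY i) else 0 := by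
    intro i
    by_cases h : i < j <;> simp [h]
  simp only [h2, h3, Finset.sum_ite_eq', Finset.mem_range]
  rw [if_pos (by omega)]
  have h4 : ∑ i ∈ range (k + 1), (if i < j then (EE φ : ℤ) * g (vY i) else 0) =
      (EE φ : ℤ) * ∑ i ∈ range j, (g (vY i) : ℤ) := by
    rw [← Finset.sum_filter, Finset.mul_sum]
    congr 1
    ext i
    simp
    omega
  rw [h4]
  simp

theorem in_Bf {j : ℕ} (hj : j < k) :
    infl k φ g (vB j false) = 2 * (EE φ : ℤ) * g (vY j) +
      (EE φ : ℤ) * ∑ i ∈ range j, (g (vY i) : ℤ) := by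
  unfold infl
  rw [sum_baseOf]
  simp only [gm_ZBt, gm_ZBf, gm_YBt, gm_YBf, gm_BB, gm_AB]
  have h3 : ∀ i, (((if i < j then EE φ else if i = j then 2 * EE φ else 0 : ℕ) : ℤ)
      * (g (vY i) : ℤ)) = (if i < j then (EE φ : ℤ) * g (vY i) else 0) +
        (if i = j then 2 * (EE φ : ℤ) * g (vY i) else 0) := by
    intro i
    rcases lt_trichotomy i j with h | h | h
    · simp [h, h.ne]
    · simp [h]
    · simp [h, h.ne', not_lt_of_gt h]
  simp only [h3, Finset.sum_add_distrib, Finset.sum_ite_eq', Finset.mem_range]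
  rw [if_pos (by omega)]
  have h4 : ∑ i ∈ range (k + 1), (if i < j then (EE φ : ℤ) * g (vY i) else 0) =
      (EE φ : ℤ) * ∑ i ∈ range j, (g (vY i) : ℤ) := by
    rw [← Finset.sum_filter, Finset.mul_sum]
    congr 1
    ext i
    simp
    omega
  rw [h4]
  simp
  ring

theorem in_A {c : ℕ} (H : ∀ l ∈ φ.getD c [], l.1 < k) :
    infl k φ g (vA c) = (EE φ : ℤ) * g (vZ 0) +
      ((φ.getD c []).map (fun l => (g (vB l.1 l.2) : ℤ))).sum := by
  unfold infl
  rw [sum_baseOf]
  simp only [gm_ZA, gm_YA, gm_BA, gm_AA]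
  rw [sum_occ H (fun j s => (g (vB j s) : ℤ))]
  have h2 : ∀ i, (((if i = 0 then EE φ else 0 : ℕ) : ℤ) * (g (vZ i) : ℤ)) =
      if i = 0 then (EE φ : ℤ) * g (vZ i) else 0 := by
    intro i
    by_cases h : i = 0 <;> simp [h]
  simp only [h2, Finset.sum_ite_eq', Finset.mem_range]
  simp

end inflow

end Pool.Agent.Work.MP_5100e0_lc
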