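import Pool.Agent.Work.MP_5100e0_lc.Gadget2
import Mathlib.Tactic

/-!
The chip-firing criterion for the gadget graph is equivalent to unsatisfiability.
-/

namespace Pool.Agent.Work.MP_5100e0_lc

open TMLib Finset

set_option linter.unusedSimpArgs false
set_option linter.unusedSectionVars false

/-- Rounded-up half of `Q / 2 ^ j`. -/
def yq (Q j : ℕ) : ℕ := (Q / 2 ^ j + 1) / 2

theorem sum_yq (Q j : ℕ) : ∑ i ∈ range j, yq Q i + Q / 2 ^ j = Q := by
  induction j with
  | zero => simp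
  | succ j ih =>
    rw [Finset.sum_range_succ]
    have h : Q / 2 ^ (j + 1) = Q / 2 ^ j / 2 := by rw [pow_succ, Nat.div_div_eq_div_mul]
    have h2 : yq Q j = (Q / 2 ^ j + 1) / 2 := rfl
    omega

/-- The literal `(j, s)` is false for the assignment given by the binary digits of `Q`. -/
def hq (Q j : ℕ) (s : Bool) : ℕ := if decide (Q / 2 ^ j % 2 = 1) = s then 0 else 1

theorem hq_le (Q j : ℕ) (s : Bool) : hq Q j s ≤ 1 := by
  unfold hq; split_ifs <;> simp

theorem hq_true (Q j : ℕ) : hq Q j true + Q / 2 ^ j % 2 = 1 := by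
  unfold hq
  rcases Nat.mod_two_eq_zero_or_one (Q / 2 ^ j) with h | h <;> simp [h]

theorem hq_false (Q j : ℕ) : hq Q j false = Q / 2 ^ j % 2 := by
  unfold hq
  rcases Nat.mod_two_eq_zero_or_one (Q / 2 ^ j) with h | h <;> simp [h]

/-- Starting distribution. -/
def xv (k : ℕ) (φ : CNF) (v : BV) : ℤ :=
  if v.1 = 0 then (if v.2.1 = 0 then ((k * EE φ + 1 + φ.length * EE φ : ℕ) : ℤ) else 0)
  else if v.1 = 1 then (KK k φ (v.2.1 + 1) : ℤ)
  else if v.1 = 2 then (if v.2.2 = true then (EE φ : ℤ) else 0)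
  else (EE φ : ℤ)

/-- Target distribution. -/
def yv (k : ℕ) (φ : CNF) (v : BV) : ℤ :=
  if v = vZ (k + 1) then 1 else if v = vY k then 0 else xv k φ v

@[simp] theorem xv_Z0 (k : ℕ) (φ : CNF) : xv k φ (vZ 0) = k * EE φ + 1 + φ.length * EE φ := by
  simp [xv, vZ]
@[simp] theorem xv_Zs (k : ℕ) (φ : CNF) (j : ℕ) : xv k φ (vZ (j + 1)) = 0 := by simp [xv, vZ]
@[simp] theorem xv_Y (k : ℕ) (φ : CNF) (j : ℕ) : xv k φ (vY j) = KK k φ (j + 1) := by
  simp [xv, vY]
@[simp] theorem xv_Bt (k : ℕ) (φ : CNF) (j : ℕ) : xv k φ (vB j true) = EE φ := by simp [xv, vB]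
@[simp] theorem xv_Bf (k : ℕ) (φ : CNF) (j : ℕ) : xv k φ (vB j false) = 0 := by simp [xv, vB]
@[simp] theorem xv_A (k : ℕ) (φ : CNF) (c : ℕ) : xv k φ (vA c) = EE φ := by simp [xv, vA]

theorem yv_Z0 (k : ℕ) (φ : CNF) : yv k φ (vZ 0) = xv k φ (vZ 0) := by simp [yv, vZ, vY]
theorem yv_Zs {k : ℕ} (φ : CNF) {j : ℕ} (hj : j < k) : yv k φ (vZ (j + 1)) = 0 := by
  simp [yv, vZ, vY, xv, hj.ne]
theorem yv_Zlast (k : ℕ) (φ : CNF) : yv k φ (vZ (k + 1)) = 1 := by simp [yv]
theorem yv_Y {k : ℕ} (φ : CNF) {j : ℕ} (hj : j < k) : yv k φ (vY j) = KK k φ (j + 1) := by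
  simp [yv, vZ, vY, xv, hj.ne]
theorem yv_Ylast (k : ℕ) (φ : CNF) : yv k φ (vY k) = 0 := by simp [yv, vY, vZ]
theorem yv_Bt (k : ℕ) (φ : CNF) (j : ℕ) : yv k φ (vB j true) = EE φ := by
  simp [yv, vB, vY, vZ, xv]
theorem yv_Bf (k : ℕ) (φ : CNF) (j : ℕ) : yv k φ (vB j false) = 0 := by
  simp [yv, vB, vY, vZ, xv]
theorem yv_A (k : ℕ) (φ : CNF) (c : ℕ) : yv k φ (vA c) = EE φ := by
  simp [yv, vA, vY, vZ, xv]

/-- The function on the names of vertices with given values on the four kinds. -/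
def mk4 {γ : Type} (a b : ℕ → γ) (c : ℕ → Bool → γ) (d : ℕ → γ) (v : BV) : γ :=
  if v.1 = 0 then a v.2.1 else if v.1 = 1 then b v.2.1 else if v.1 = 2 then c v.2.1 v.2.2
  else d v.2.1

section
variable {γ : Type} (a b : ℕ → γ) (c : ℕ → Bool → γ) (d : ℕ → γ) (j : ℕ) (s : Bool)
@[simp] theorem mk4_Z : mk4 a b c d (vZ j) = a j := by simp [mk4, vZ]
@[simp] theorem mk4_Y : mk4 a b c d (vY j) = b j := by simp [mk4, vY]
@[simp] theorem mk4_B : mk4 a b c d (vB j s) = c j s := by simp [mk4, vB]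
@[simp] theorem mk4_A : mk4 a b c d (vA j) = d j := by simp [mk4, vA]
end

theorem sum_getD {M : Type} [AddCommMonoid M] (φ : CNF) (f : List (ℕ × Bool) → M) :
    ∑ c ∈ range φ.length, f (φ.getD c []) = (φ.map f).sum := by
  induction φ with
  | nil => simp
  | cons c φ ih =>
    rw [List.length_cons, Finset.sum_range_succ']
    simp only [List.getD_cons_succ, List.getD_cons_zero, ih]
    simp [add_comm]

theorem sum_flatten_map (φ : CNF) (f : ℕ × Bool → ℤ) :
    (φ.flatten.map f).sum = (φ.map (fun c => (c.map f).sum)).sum := by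
  induction φ with
  | nil => simp
  | cons c φ ih =>
    rw [List.flatten_cons, List.map_append, List.sum_append, ih, List.map_cons, List.sum_cons]

theorem EE_eq (φ : CNF) : EE φ = (φ.map List.length).sum + 1 := by
  simp [EE, List.length_flatten]

/-- The flow into `Z 0` for the ideal firing numbers. -/
theorem flow_main (k : ℕ) (φ : CNF) (H : ∀ c ∈ φ, ∀ l ∈ c, l.1 < k) (Q : ℕ)
    (hQ : Q < 2 ^ (k + 1)) (F : List (ℕ × Bool) → ℤ) :
    ∑ j ∈ range (k + 1), 2 * (yq Q j : ℤ) +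
    ∑ j ∈ range k, (((EE φ : ℤ) - occ φ.flatten j true) * (Q + hq Q j true : ℤ) +
      ((EE φ : ℤ) - occ φ.flatten j false) * (Q + hq Q j false : ℤ)) +
    ∑ c ∈ range φ.length, ((EE φ : ℤ) + (φ.getD c []).length) * (Q + F (φ.getD c [])) =
    Q * (2 + 2 * k * EE φ + φ.length * EE φ) + k * EE φ +
      (φ.map (fun c => ((EE φ : ℤ) + c.length) * F c -
        (c.map (fun l => (hq Q l.1 l.2 : ℤ))).sum)).sum := by
  have h1 : ∑ j ∈ range (k + 1), (2 : ℤ) * (yq Q j : ℤ) = 2 * Q := by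
    rw [← Finset.mul_sum]
    have := sum_yq Q (k + 1)
    rw [Nat.div_eq_of_lt hQ] at this
    have h : ∑ j ∈ range (k + 1), (yq Q j : ℤ) = (Q : ℤ) := by
      exact_mod_cast this
    rw [h]
  have hfl : ∀ l ∈ φ.flatten, l.1 < k := by
    intro l hl
    obtain ⟨c, hc, hlc⟩ := List.mem_flatten.1 hl
    exact H c hc l hlc
  have h2 : ∑ j ∈ range k, (((EE φ : ℤ) - occ φ.flatten j true) * (Q + hq Q j true : ℤ) +
      ((EE φ : ℤ) - occ φ.flatten j false) * (Q + hq Q j false : ℤ)) =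
      2 * k * EE φ * Q + k * EE φ - (φ.flatten.map (fun l => (Q + hq Q l.1 l.2 : ℤ))).sum := by
    rw [← sum_occ hfl (fun j s => (Q + hq Q j s : ℤ))]
    have : ∀ j, (((EE φ : ℤ) - occ φ.flatten j true) * (Q + hq Q j true : ℤ) +
      ((EE φ : ℤ) - occ φ.flatten j false) * (Q + hq Q j false : ℤ)) =
      ((EE φ : ℤ) * (2 * Q + 1)) - ((occ φ.flatten j true : ℤ) * (Q + hq Q j true : ℤ) +
        (occ φ.flatten j false : ℤ) * (Q + hq Q j false : ℤ)) := by
      intro j
      have e1 : (hq Q j true : ℤ) + (Q / 2 ^ j % 2 : ℕ) = 1 := by exact_mod_cast hq_true Q j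
      have e2 : (hq Q j false : ℤ) = (Q / 2 ^ j % 2 : ℕ) := by exact_mod_cast hq_false Q j
      have e3 : (hq Q j true : ℤ) + hq Q j false = 1 := by rw [e2]; exact e1
      linear_combination (EE φ : ℤ) * e3
    simp only [this, Finset.sum_sub_distrib, Finset.sum_const, Finset.card_range, nsmul_eq_mul]
    ring
  have h3 : ∑ c ∈ range φ.length, ((EE φ : ℤ) + (φ.getD c []).length) * (Q + F (φ.getD c [])) =
      (φ.map (fun c => ((EE φ : ℤ) + c.length) * (Q + F c))).sum :=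
    sum_getD φ (fun c => ((EE φ : ℤ) + c.length) * (Q + F c))
  rw [h1, h2, h3, sum_flatten_map]
  have h4 : (φ.map (fun c => ((EE φ : ℤ) + c.length) * (Q + F c))).sum =
      (φ.map (fun c => (c.map (fun l => (Q + hq Q l.1 l.2 : ℤ))).sum)).sum +
      φ.length * EE φ * Q + (φ.map (fun c => ((EE φ : ℤ) + c.length) * F c -
        (c.map (fun l => (hq Q l.1 l.2 : ℤ))).sum)).sum := by
    generalize (EE φ : ℤ) = E
    clear h1 h2 h3 hfl H
    induction φ with
    | nil => simp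
    | cons c φ ih =>
      simp only [List.map_cons, List.sum_cons, List.length_cons, ih]
      have : (c.map (fun l => (Q + hq Q l.1 l.2 : ℤ))).sum = c.length * Q +
          (c.map (fun l => (hq Q l.1 l.2 : ℤ))).sum := by
        clear ih
        induction c with
        | nil => simp
        | cons l c ih => simp only [List.map_cons, List.sum_cons, ih, List.length_cons]; push_cast; ring
      rw [this]
      push_cast
      ring
  rw [h4]
  ring

theorem flow_const (k : ℕ) (φ : CNF) (H : ∀ c ∈ φ, ∀ l ∈ c, l.1 < k) (Q : ℕ)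
    (hQ : Q < 2 ^ (k + 1)) :
    ∑ j ∈ range (k + 1), 2 * (yq Q j : ℤ) +
    ∑ j ∈ range k, (((EE φ : ℤ) - occ φ.flatten j true) * (Q : ℤ) +
      ((EE φ : ℤ) - occ φ.flatten j false) * (Q : ℤ)) +
    ∑ c ∈ range φ.length, ((EE φ : ℤ) + (φ.getD c []).length) * (Q : ℤ) =
    Q * (2 + 2 * k * EE φ + φ.length * EE φ) := by
  have h1 : ∑ j ∈ range (k + 1), (2 : ℤ) * (yq Q j : ℤ) = 2 * Q := by
    rw [← Finset.mul_sum]
    have := sum_yq Q (k + 1)
    rw [Nat.div_eq_of_lt hQ] at this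
    have h : ∑ j ∈ range (k + 1), (yq Q j : ℤ) = (Q : ℤ) := by
      exact_mod_cast this
    rw [h]
  have hfl : ∀ l ∈ φ.flatten, l.1 < k := by
    intro l hl
    obtain ⟨c, hc, hlc⟩ := List.mem_flatten.1 hl
    exact H c hc l hlc
  have h2 : ∑ j ∈ range k, (((EE φ : ℤ) - occ φ.flatten j true) * (Q : ℤ) +
      ((EE φ : ℤ) - occ φ.flatten j false) * (Q : ℤ)) =
      2 * k * EE φ * Q - φ.flatten.length * Q := by
    have h := sum_occ hfl (fun _ _ => (Q : ℤ))
    have h' : ∀ u : List (ℕ × Bool), (u.map (fun _ => (Q : ℤ))).sum = u.length * Q := by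
      intro u
      simp
    rw [h' φ.flatten] at h
    rw [← h]
    have : ∀ j, (((EE φ : ℤ) - occ φ.flatten j true) * (Q : ℤ) +
      ((EE φ : ℤ) - occ φ.flatten j false) * (Q : ℤ)) =
      ((EE φ : ℤ) * (2 * Q)) - ((occ φ.flatten j true : ℤ) * (Q : ℤ) +
        (occ φ.flatten j false : ℤ) * (Q : ℤ)) := by
      intro j
      ring
    simp only [this, Finset.sum_sub_distrib, Finset.sum_const, Finset.card_range, nsmul_eq_mul]
    ring
  have h3 : ∑ c ∈ range φ.length, ((EE φ : ℤ) + (φ.getD c []).length) * (Q : ℤ) =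
      (φ.map (fun c => ((EE φ : ℤ) + c.length) * (Q : ℤ))).sum :=
    sum_getD φ (fun c => ((EE φ : ℤ) + c.length) * (Q : ℤ))
  have h4 : (φ.map (fun c => ((EE φ : ℤ) + c.length) * (Q : ℤ))).sum =
      φ.length * EE φ * Q + φ.flatten.length * Q := by
    generalize (EE φ : ℤ) = E
    clear h1 h2 h3 hfl H
    induction φ with
    | nil => simp
    | cons c φ ih =>
      simp only [List.map_cons, List.sum_cons, List.length_cons, ih, List.flatten_cons,
        List.length_append]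
      push_cast
      ring
  rw [h1, h2, h3, h4]
  ring

theorem sum_ge_of_exists (φ : CNF) (t : List (ℕ × Bool) → ℤ) (E : ℤ)
    (h1 : ∀ c ∈ φ, -(c.length : ℤ) ≤ t c) (h2 : ∃ c ∈ φ, E ≤ t c) :
    E - (φ.flatten.length : ℤ) ≤ (φ.map t).sum := by
  have key : ∀ φ : CNF, (∀ c ∈ φ, -(c.length : ℤ) ≤ t c) →
      -(φ.flatten.length : ℤ) ≤ (φ.map t).sum := by
    intro φ
    induction φ with
    | nil => simp
    | cons c φ ih =>
      intro h
      have e1 := ih (fun d hd => h d (List.mem_cons_of_mem _ hd))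
      have e2 := h c (List.mem_cons_self ..)
      rw [List.flatten_cons, List.length_append, List.map_cons, List.sum_cons]
      push_cast
      linarith
  induction φ with
  | nil => simp at h2
  | cons c φ ih =>
    rw [List.flatten_cons, List.length_append, List.map_cons, List.sum_cons]
    obtain ⟨d, hd, hEd⟩ := h2
    rcases List.mem_cons.1 hd with rfl | hd
    · have e1 := key φ (fun d' hd' => h1 d' (List.mem_cons_of_mem _ hd'))
      push_cast
      linarith [Int.natCast_nonneg d.length]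
    · have e1 := ih (fun d' hd' => h1 d' (List.mem_cons_of_mem _ hd')) ⟨d, hd, hEd⟩
      have e2 := h1 c (List.mem_cons_self ..)
      push_cast
      linarith

end Pool.Agent.Work.MP_5100e0_lc
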