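import Pool.Agent.Work.MP_5100e0_lc.Gadget3
import Mathlib.Tactic

/-!
The chip-firing criterion for the gadget graph is equivalent to unsatisfiability.
-/

namespace Pool.Agent.Work.MP_5100e0_lc

open TMLib Finset

set_option linter.unusedSimpArgs false
set_option linter.unusedSectionVars false

theorem two_pow_div {k j : ℕ} (hj : j < k) : 2 ^ k / 2 ^ j = 2 * (2 ^ k / 2 ^ (j + 1)) := by
  rw [Nat.pow_div hj.le (by norm_num), Nat.pow_div (by omega) (by norm_num)]
  rw [show k - j = (k - (j + 1)) + 1 by omega, pow_succ]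
  ring

theorem yq_two_pow {k j : ℕ} (hj : j < k) : yq (2 ^ k) j = 2 ^ k / 2 ^ (j + 1) := by
  unfold yq
  rw [two_pow_div hj]
  omega

theorem yq_mono {Q R : ℕ} (h : Q ≤ R) (j : ℕ) : yq Q j ≤ yq R j := by
  unfold yq
  apply Nat.div_le_div_right
  have := Nat.div_le_div_right (c := 2 ^ j) h
  omega

theorem sum_yq_int (Q j : ℕ) : ∑ i ∈ range j, (yq Q i : ℤ) = (Q : ℤ) - (Q / 2 ^ j : ℕ) := by
  have := sum_yq Q j
  have h : (∑ i ∈ range j, (yq Q i : ℤ)) + (Q / 2 ^ j : ℕ) = (Q : ℤ) := by exact_mod_cast this
  linarith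

theorem div_succ (Q j : ℕ) : Q / 2 ^ (j + 1) = Q / 2 ^ j / 2 := by
  rw [pow_succ, Nat.div_div_eq_div_mul]

theorem getD_mem {φ : CNF} {c : ℕ} (hc : c < φ.length) : φ.getD c [] ∈ φ := by
  rw [List.getD_eq_getElem?_getD, List.getElem?_eq_getElem hc]
  simp

/-- Intended firing numbers. -/
def ff (k : ℕ) : BV → ℕ :=
  mk4 (fun j => 2 ^ k / 2 ^ j) (fun j => yq (2 ^ k) j) (fun _ _ => 2 ^ k) (fun _ => 2 ^ k)

theorem deg_Z0' (k : ℕ) (φ : CNF) : (degOf (baseOf k φ.length) (gm k φ) (vZ 0) : ℤ) =
    2 * (k * EE φ + 1) + φ.length * EE φ := by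
  rw [deg_Z0]
  simp [KK]

theorem ff_spec (k : ℕ) (φ : CNF) (H : ∀ c ∈ φ, ∀ l ∈ c, l.1 < k) :
    ∀ v ∈ baseOf k φ.length, yv k φ v =
      mchips (baseOf k φ.length) (gm k φ) (xv k φ) (ff k) v := by
  intro v hv
  rw [mchips_eq]
  have hpow : (2:ℕ) ^ k < 2 ^ (k + 1) := Nat.pow_lt_pow_right (by norm_num) (by omega)
  have hlast : 2 ^ k / 2 ^ (k + 1) = 0 := Nat.div_eq_of_lt hpow
  have hk1 : 2 ^ k / 2 ^ k = 1 := Nat.div_self (by positivity)
  rcases mem_baseOf.1 hv with ⟨j, hj, rfl⟩ | ⟨j, hj, rfl⟩ | ⟨j, hj, s, rfl⟩ | ⟨c, hc, rfl⟩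
  · rcases Nat.eq_zero_or_pos j with rfl | hj0
    · rw [yv_Z0, in_Z0, deg_Z0']
      simp only [ff, mk4_Z, mk4_Y, mk4_B, mk4_A]
      have := flow_const k φ H (2 ^ k) hpow
      rw [this]
      simp
      ring
    · obtain ⟨i, rfl⟩ : ∃ i, j = i + 1 := ⟨j - 1, by omega⟩
      rcases Nat.lt_or_ge i k with hi | hi
      · rw [yv_Zs φ hi, in_Zs k φ _ (by omega), deg_Zs k φ hi, xv_Zs]
        simp only [ff, mk4_Z]
        rw [two_pow_div hi]
        push_cast
        ring
      · have : i = k := by omega
        subst this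
        rw [yv_Zlast, in_Zs i φ _ (by omega), deg_Zlast, xv_Zs, KK_last]
        simp only [ff, mk4_Z, hk1, hlast]
        simp
  · rcases Nat.lt_or_ge j k with hi | hi
    · rw [yv_Y φ hi, in_Y k φ _ hj, deg_Y k φ hj, xv_Y]
      simp only [ff, mk4_Z, mk4_Y]
      rw [yq_two_pow hi, two_pow_div hi]
      push_cast
      ring
    · have : j = k := by omega
      subst this
      rw [yv_Ylast, in_Y j φ _ hj, deg_Y j φ hj, xv_Y, KK_last]
      simp only [ff, mk4_Z, mk4_Y, yq, hk1]
      norm_num
  · have e1 := sum_yq_int (2 ^ k) j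
    have e2 := two_pow_div hj
    cases s
    · rw [yv_Bf, in_Bf k φ _ hj, deg_B, xv_Bf]
      simp only [ff, mk4_Z, mk4_Y, mk4_B]
      rw [e1, yq_two_pow hj, e2]
      push_cast
      ring
    · rw [yv_Bt, in_Bt k φ _ hj, deg_B, xv_Bt]
      simp only [ff, mk4_Z, mk4_Y, mk4_B]
      rw [e1, e2]
      push_cast
      ring
  · rw [yv_A, in_A k φ _ (fun l hl => H _ (getD_mem hc) l hl), deg_A, xv_A]
    simp only [ff, mk4_Z, mk4_B, mk4_A]
    have : ∀ u : List (ℕ × Bool), (u.map (fun _ => ((2 ^ k : ℕ) : ℤ))).sum = u.length * (2 ^ k : ℕ) := by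
      intro u
      simp
    rw [this]
    push_cast
    simp
    ring

theorem ff_static (k : ℕ) (φ : CNF) (H : ∀ c ∈ φ, ∀ l ∈ c, l.1 < k) (hφ : ¬ Sat φ) (g : BV → ℕ)
    (hg : ∀ v ∈ baseOf k φ.length, g v ≤ ff k v) (hne : ∃ v ∈ baseOf k φ.length, g v < ff k v) :
    ∃ v ∈ baseOf k φ.length, g v < ff k v ∧
      (degOf (baseOf k φ.length) (gm k φ) v : ℤ) ≤
        mchips (baseOf k φ.length) (gm k φ) (xv k φ) g v := by
  by_contra hcon
  push Not at hcon
  -- names
  have mZ : ∀ j < k + 2, vZ j ∈ baseOf k φ.length := fun j hj => mem_baseOf.2 (.inl ⟨j, hj, rfl⟩)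
  have mY : ∀ j < k + 1, vY j ∈ baseOf k φ.length :=
    fun j hj => mem_baseOf.2 (.inr (.inl ⟨j, hj, rfl⟩))
  have mB : ∀ j < k, ∀ s, vB j s ∈ baseOf k φ.length :=
    fun j hj s => mem_baseOf.2 (.inr (.inr (.inl ⟨j, hj, s, rfl⟩)))
  have mA : ∀ c < φ.length, vA c ∈ baseOf k φ.length :=
    fun c hc => mem_baseOf.2 (.inr (.inr (.inr ⟨c, hc, rfl⟩)))
  have fZ : ∀ j, ff k (vZ j) = 2 ^ k / 2 ^ j := by intro j; simp [ff]
  have fY : ∀ j, ff k (vY j) = yq (2 ^ k) j := by intro j; simp [ff]
  have fB : ∀ j s, ff k (vB j s) = 2 ^ k := by intro j s; simp [ff]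
  have fA : ∀ c, ff k (vA c) = 2 ^ k := by intro c; simp [ff]
  have hpow : (2:ℕ) ^ k < 2 ^ (k + 1) := Nat.pow_lt_pow_right (by norm_num) (by omega)
  have hEpos : (0 : ℤ) < EE φ := by
    have : 0 < EE φ := Nat.succ_pos _
    exact_mod_cast this
  obtain ⟨Q, hQ⟩ : ∃ Q, Q = g (vZ 0) := ⟨_, rfl⟩
  have hQle : Q ≤ 2 ^ k := by
    have := hg (vZ 0) (mZ 0 (by omega))
    rw [fZ] at this
    simpa [hQ] using this
  -- lower bounds for Z
  have LZ : ∀ j ≤ k, Q / 2 ^ j ≤ g (vZ j) := by
    intro j
    induction j with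
    | zero => intro _; simp [hQ]
    | succ j ih =>
      intro hj
      have ih := ih (by omega)
      by_cases hlt : g (vZ (j + 1)) < ff k (vZ (j + 1))
      · have h := hcon _ (mZ _ (by omega)) hlt
        rw [mchips_eq, in_Zs k φ _ (by omega), deg_Zs k φ (by omega), xv_Zs] at h
        have hK : (0 : ℤ) < KK k φ (j + 1) := by simp [KK]; positivity
        have h2 : (g (vZ j) : ℤ) < 2 * g (vZ (j + 1)) + 2 := by
          by_contra hc
          push Not at hc
          have := mul_le_mul_of_nonneg_left hc hK.le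
          push_cast at h
          nlinarith
        rw [div_succ]
        omega
      · have h2 : ff k (vZ (j + 1)) ≤ g (vZ (j + 1)) := by omega
        rw [fZ] at h2
        exact (Nat.div_le_div_right hQle).trans h2
  -- lower bounds for Y
  have LY : ∀ j ≤ k, yq Q j ≤ g (vY j) := by
    intro j hj
    by_cases hlt : g (vY j) < ff k (vY j)
    · have h := hcon _ (mY _ (by omega)) hlt
      rw [mchips_eq, in_Y k φ _ (by omega), deg_Y k φ (by omega), xv_Y] at h
      have hK : (0 : ℤ) < KK k φ (j + 1) := by simp [KK]; positivity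
      have h2 : (g (vZ j) : ℤ) + 1 < 2 * g (vY j) + 2 := by
        by_contra hc
        push Not at hc
        have := mul_le_mul_of_nonneg_left hc hK.le
        push_cast at h
        nlinarith
      have h3 := LZ j hj
      unfold yq
      omega
    · have h2 : ff k (vY j) ≤ g (vY j) := by omega
      rw [fY] at h2
      exact (yq_mono hQle j).trans h2
  have SY : ∀ j ≤ k, (Q : ℤ) - (Q / 2 ^ j : ℕ) ≤ ∑ i ∈ range j, (g (vY i) : ℤ) := by
    intro j hj
    rw [← sum_yq_int]
    apply Finset.sum_le_sum
    intro i hi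
    rw [Finset.mem_range] at hi
    exact_mod_cast LY i (by omega)
  -- lower bounds for B
  have LB : ∀ j < k, ∀ s, g (vB j s) = 2 ^ k ∨ Q + hq Q j s ≤ g (vB j s) := by
    intro j hj s
    by_cases hlt : g (vB j s) < ff k (vB j s)
    · right
      have h := hcon _ (mB _ hj s) hlt
      have h1 := SY j (by omega)
      have h2 := LZ (j + 1) (by omega)
      have h3 := LY j (by omega)
      have h5 := div_succ Q j
      cases s
      · rw [mchips_eq, in_Bf k φ _ hj, deg_B, xv_Bf] at h
        have h4 : (2 : ℤ) * g (vY j) + ∑ i ∈ range j, (g (vY i) : ℤ) < g (vB j false) + 1 := by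
          by_contra hc
          push Not at hc
          have := mul_le_mul_of_nonneg_left hc hEpos.le
          nlinarith
        have h6 := hq_false Q j
        unfold yq at h3
        omega
      · rw [mchips_eq, in_Bt k φ _ hj, deg_B, xv_Bt] at h
        have h4 : (2 : ℤ) * g (vZ (j + 1)) + ∑ i ∈ range j, (g (vY i) : ℤ) < g (vB j true) := by
          by_contra hc
          push Not at hc
          have := mul_le_mul_of_nonneg_left hc hEpos.le
          nlinarith
        have h6 := hq_true Q j
        omega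
    · left
      have h1 := hg _ (mB _ hj s)
      rw [fB] at h1 hlt
      omega
  rcases Nat.lt_or_ge Q (2 ^ k) with hQlt | hQge
  · -- the vertex `Z 0` can fire
    have LB' : ∀ j < k, ∀ s, Q + hq Q j s ≤ g (vB j s) := by
      intro j hj s
      rcases LB j hj s with h | h
      · have := hq_le Q j s
        omega
      · exact h
    -- the indicator of falsified clauses
    obtain ⟨F, hF⟩ : ∃ F : List (ℕ × Bool) → ℤ, F = fun c =>
      if ∀ l ∈ c, hq Q l.1 l.2 = 1 then 1 else 0 := ⟨_, rfl⟩
    have LA : ∀ c < φ.length, (Q : ℤ) + F (φ.getD c []) ≤ g (vA c) := by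
      intro c hc
      have hmem : φ.getD c [] ∈ φ := getD_mem hc
      by_cases hlt : g (vA c) < ff k (vA c)
      · have h := hcon _ (mA c hc) hlt
        rw [mchips_eq, in_A k φ _ (fun l hl => H _ hmem l hl), deg_A, xv_A, ← hQ] at h
        have hcl : ∀ l ∈ φ.getD c [], l.1 < k := H _ hmem
        generalize φ.getD c [] = cl at h hcl hmem ⊢
        have h1 : ∀ u : List (ℕ × Bool), (∀ l ∈ u, l.1 < k) →
            (u.length : ℤ) * Q ≤ (u.map (fun l => (g (vB l.1 l.2) : ℤ))).sum := by
          intro u
          induction u with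
          | nil => simp
          | cons l u ih =>
            intro hu
            have e1 := ih (fun l' hl' => hu l' (List.mem_cons_of_mem _ hl'))
            have e2 := LB' l.1 (hu l (List.mem_cons_self ..)) l.2
            simp only [List.map_cons, List.sum_cons, List.length_cons]
            push_cast
            have e3 : (Q : ℤ) ≤ g (vB l.1 l.2) := by
              have : Q ≤ g (vB l.1 l.2) := by omega
              exact_mod_cast this
            linarith
        have h2 : ∀ u : List (ℕ × Bool), (∀ l ∈ u, l.1 < k) → (∀ l ∈ u, hq Q l.1 l.2 = 1) →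
            (u.length : ℤ) * (Q + 1) ≤ (u.map (fun l => (g (vB l.1 l.2) : ℤ))).sum := by
          intro u
          induction u with
          | nil => simp
          | cons l u ih =>
            intro hu hu'
            have e1 := ih (fun l' hl' => hu l' (List.mem_cons_of_mem _ hl'))
              (fun l' hl' => hu' l' (List.mem_cons_of_mem _ hl'))
            have e2 := LB' l.1 (hu l (List.mem_cons_self ..)) l.2
            rw [hu' l (List.mem_cons_self ..)] at e2
            simp only [List.map_cons, List.sum_cons, List.length_cons]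
            push_cast
            have e3 : (Q : ℤ) + 1 ≤ g (vB l.1 l.2) := by exact_mod_cast e2
            linarith
        have hlen : (0 : ℤ) ≤ cl.length := by positivity
        rw [hF]
        by_cases hfal : ∀ l ∈ cl, hq Q l.1 l.2 = 1
        · simp only [hfal, implies_true, if_true]
          have e1 := h2 cl hcl hfal
          by_contra hc2
          push Not at hc2
          have e2 : (g (vA c) : ℤ) ≤ Q := by omega
          have e3 : ((EE φ : ℤ) + cl.length) * g (vA c) ≤ ((EE φ : ℤ) + cl.length) * Q :=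
            mul_le_mul_of_nonneg_left e2 (by linarith)
          push_cast at h
          nlinarith
        · simp only [hfal, if_false, add_zero]
          have e1 := h1 cl hcl
          by_contra hc2
          push Not at hc2
          have e2 : (g (vA c) : ℤ) ≤ Q - 1 := by omega
          have e3 : ((EE φ : ℤ) + cl.length) * g (vA c) ≤ ((EE φ : ℤ) + cl.length) * (Q - 1) :=
            mul_le_mul_of_nonneg_left e2 (by linarith)
          push_cast at h
          nlinarith
      · have h1 : 2 ^ k ≤ g (vA c) := by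
          rw [fA] at hlt
          omega
        have h2 : F (φ.getD c []) ≤ 1 := by
          rw [hF]
          simp only
          split_ifs <;> simp
        have h3 : (Q : ℤ) + 1 ≤ g (vA c) := by
          have : Q + 1 ≤ g (vA c) := by omega
          exact_mod_cast this
        linarith
    have hlt0 : g (vZ 0) < ff k (vZ 0) := by rw [fZ, ← hQ]; simpa using hQlt
    have h := hcon _ (mZ 0 (by omega)) hlt0
    rw [mchips_eq, in_Z0, deg_Z0', xv_Z0, ← hQ] at h
    have hfl := flow_main k φ H Q (by omega) F
    -- compare the inflow with the ideal one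
    have c1 : ∑ j ∈ range (k + 1), 2 * (yq Q j : ℤ) ≤ ∑ j ∈ range (k + 1), 2 * (g (vY j) : ℤ) := by
      apply Finset.sum_le_sum
      intro j hj
      rw [Finset.mem_range] at hj
      have : yq Q j ≤ g (vY j) := LY j (by omega)
      have : (yq Q j : ℤ) ≤ g (vY j) := by exact_mod_cast this
      linarith
    have c2 : ∑ j ∈ range k, (((EE φ : ℤ) - occ φ.flatten j true) * (Q + hq Q j true : ℤ) +
        ((EE φ : ℤ) - occ φ.flatten j false) * (Q + hq Q j false : ℤ)) ≤
        ∑ j ∈ range k, (((EE φ : ℤ) - occ φ.flatten j true) * g (vB j true) +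
        ((EE φ : ℤ) - occ φ.flatten j false) * g (vB j false)) := by
      apply Finset.sum_le_sum
      intro j hj
      rw [Finset.mem_range] at hj
      have e : ∀ s, (0 : ℤ) ≤ (EE φ : ℤ) - occ φ.flatten j s := by
        intro s
        have := occ_add φ.flatten j s
        simp only [EE]
        omega
      have e1 : ∀ s, (Q + hq Q j s : ℤ) ≤ g (vB j s) := by
        intro s
        exact_mod_cast LB' j hj s
      exact add_le_add (mul_le_mul_of_nonneg_left (e1 true) (e true))
        (mul_le_mul_of_nonneg_left (e1 false) (e false))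
    have c3 : ∑ c ∈ range φ.length, ((EE φ : ℤ) + (φ.getD c []).length) * (Q + F (φ.getD c [])) ≤
        ∑ c ∈ range φ.length, ((EE φ : ℤ) + (φ.getD c []).length) * g (vA c) := by
      apply Finset.sum_le_sum
      intro c hc
      rw [Finset.mem_range] at hc
      exact mul_le_mul_of_nonneg_left (LA c hc) (by positivity)
    have hS : (1 : ℤ) ≤ (φ.map (fun c => ((EE φ : ℤ) + c.length) * F c -
        (c.map (fun l => (hq Q l.1 l.2 : ℤ))).sum)).sum := by
      have hE : (EE φ : ℤ) - (φ.flatten.length : ℤ) = 1 := by simp only [EE]; push_cast; ring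
      rw [← hE]
      have hsumle : ∀ u : List (ℕ × Bool), (u.map (fun l => (hq Q l.1 l.2 : ℤ))).sum ≤ u.length := by
        intro u
        induction u with
        | nil => simp
        | cons l u ih =>
          have := hq_le Q l.1 l.2
          have : (hq Q l.1 l.2 : ℤ) ≤ 1 := by exact_mod_cast this
          simp only [List.map_cons, List.sum_cons, List.length_cons]
          push_cast
          linarith
      have hFnn : ∀ c, 0 ≤ F c := by
        intro c
        rw [hF]
        simp only
        split_ifs <;> simp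
      apply sum_ge_of_exists
      · intro c hc
        have e1 := hsumle c
        have e2 : 0 ≤ ((EE φ : ℤ) + c.length) * F c := mul_nonneg (by positivity) (hFnn c)
        linarith
      · -- a falsified clause exists
        unfold Sat at hφ
        push Not at hφ
        obtain ⟨c, hc, hcl⟩ := hφ (fun j => decide (Q / 2 ^ j % 2 = 1))
        refine ⟨c, hc, ?_⟩
        have hall : ∀ l ∈ c, hq Q l.1 l.2 = 1 := by
          intro l hl
          have := hcl l hl
          unfold hq
          rw [if_neg this]
        have e1 : F c = 1 := by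
          rw [hF]
          simp only
          rw [if_pos hall]
        rw [e1]
        have := hsumle c
        linarith
    generalize (φ.map (fun c => ((EE φ : ℤ) + c.length) * F c -
        (c.map (fun l => (hq Q l.1 l.2 : ℤ))).sum)).sum = S at hfl hS
    nlinarith
  · -- everything is full
    have hQeq : Q = 2 ^ k := by omega
    obtain ⟨v, hv, hlt⟩ := hne
    rcases mem_baseOf.1 hv with ⟨j, hj, rfl⟩ | ⟨j, hj, rfl⟩ | ⟨j, hj, s, rfl⟩ | ⟨c, hc, rfl⟩
    · rcases Nat.lt_or_ge j (k + 1) with hj' | hj'
      · have := LZ j (by omega)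
        rw [fZ] at hlt
        rw [hQeq] at this
        omega
      · have : j = k + 1 := by omega
        subst this
        rw [fZ, Nat.div_eq_of_lt hpow] at hlt
        omega
    · have := LY j (by omega)
      rw [fY] at hlt
      rw [hQeq] at this
      omega
    · rw [fB] at hlt
      rcases LB j hj s with h | h <;> omega
    · have hmem : φ.getD c [] ∈ φ := getD_mem hc
      have h := hcon _ (mA c hc) hlt
      rw [mchips_eq, in_A k φ _ (fun l hl => H _ hmem l hl), deg_A, xv_A, ← hQ] at h
      have hcl : ∀ l ∈ φ.getD c [], l.1 < k := H _ hmem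
      generalize φ.getD c [] = cl at h hcl hmem
      have h1 : ∀ u : List (ℕ × Bool), (∀ l ∈ u, l.1 < k) →
          (u.length : ℤ) * Q ≤ (u.map (fun l => (g (vB l.1 l.2) : ℤ))).sum := by
        intro u
        induction u with
        | nil => simp
        | cons l u ih =>
          intro hu
          have e1 := ih (fun l' hl' => hu l' (List.mem_cons_of_mem _ hl'))
          have e2 : Q ≤ g (vB l.1 l.2) := by
            rcases LB l.1 (hu l (List.mem_cons_self ..)) l.2 with h | h <;> omega
          simp only [List.map_cons, List.sum_cons, List.length_cons]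
          push_cast
          have e3 : (Q : ℤ) ≤ g (vB l.1 l.2) := by exact_mod_cast e2
          linarith
      have e1 := h1 cl hcl
      have hlen : (0 : ℤ) ≤ cl.length := by positivity
      rw [fA, ← hQeq] at hlt
      have e2 : (g (vA c) : ℤ) ≤ Q - 1 := by omega
      have e3 : ((EE φ : ℤ) + cl.length) * g (vA c) ≤ ((EE φ : ℤ) + cl.length) * (Q - 1) :=
        mul_le_mul_of_nonneg_left e2 (by linarith)
      push_cast at h
      nlinarith

end Pool.Agent.Work.MP_5100e0_lc
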