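import Pool.Agent.Work.MP_5100e0_lc.Gadget4
import Mathlib.Tactic

/-!
If the formula is satisfiable, then the target is not reachable.
-/

namespace Pool.Agent.Work.MP_5100e0_lc

open TMLib Finset

set_option linter.unusedSimpArgs false
set_option linter.unusedSectionVars false

theorem exists_digits (v : ℕ → Bool) (k : ℕ) :
    ∃ Q < 2 ^ k, ∀ j < k, decide (Q / 2 ^ j % 2 = 1) = v j := by
  induction k with
  | zero => exact ⟨0, by simp, by simp⟩
  | succ k ih =>
    obtain ⟨Q, hQ, hd⟩ := ih
    refine ⟨Q + (if v k then 2 ^ k else 0), ?_, ?_⟩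
    · rw [pow_succ]
      split_ifs <;> omega
    · intro j hj
      rcases Nat.lt_or_ge j k with h | h
      · rw [← hd j h]
        split_ifs
        · have : 2 ^ k = 2 ^ j * (2 * 2 ^ (k - (j + 1))) := by
            rw [← pow_succ', ← pow_add]
            congr 1
            omega
          rw [this, Nat.add_mul_div_left _ _ (by positivity)]
          simp
        · simp
      · have : j = k := by omega
        subst this
        cases hv : v j
        · simp [Nat.div_eq_of_lt hQ]
        · simp [Nat.add_div_right _ (show 0 < 2 ^ j by positivity), Nat.div_eq_of_lt hQ]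

theorem not_static (k : ℕ) (φ : CNF) (H : ∀ c ∈ φ, ∀ l ∈ c, l.1 < k) (hφ : Sat φ) (f : BV → ℕ)
    (hf : ∀ v ∈ baseOf k φ.length, yv k φ v =
      mchips (baseOf k φ.length) (gm k φ) (xv k φ) f v)
    (hst : ∀ g : BV → ℕ, (∀ v ∈ baseOf k φ.length, g v ≤ f v) →
      (∃ v ∈ baseOf k φ.length, g v < f v) →
      ∃ v ∈ baseOf k φ.length, g v < f v ∧ (degOf (baseOf k φ.length) (gm k φ) v : ℤ) ≤
        mchips (baseOf k φ.length) (gm k φ) (xv k φ) g v) : False := by
  have mZ : ∀ j < k + 2, vZ j ∈ baseOf k φ.length := fun j hj => mem_baseOf.2 (.inl ⟨j, hj, rfl⟩)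
  have mY : ∀ j < k + 1, vY j ∈ baseOf k φ.length :=
    fun j hj => mem_baseOf.2 (.inr (.inl ⟨j, hj, rfl⟩))
  have mB : ∀ j < k, ∀ s, vB j s ∈ baseOf k φ.length :=
    fun j hj s => mem_baseOf.2 (.inr (.inr (.inl ⟨j, hj, s, rfl⟩)))
  have mA : ∀ c < φ.length, vA c ∈ baseOf k φ.length :=
    fun c hc => mem_baseOf.2 (.inr (.inr (.inr ⟨c, hc, rfl⟩)))
  have hpow : (2:ℕ) ^ k < 2 ^ (k + 1) := Nat.pow_lt_pow_right (by norm_num) (by omega)
  have hk1 : 2 ^ k / 2 ^ k = 1 := Nat.div_self (by positivity)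
  have hEpos : (0 : ℤ) < EE φ := by
    have : 0 < EE φ := Nat.succ_pos _
    exact_mod_cast this
  have hKpos : ∀ j, (0 : ℤ) < KK k φ j := by
    intro j
    have : 0 < KK k φ j := Nat.succ_pos _
    exact_mod_cast this
  -- the firing numbers of the legal game
  have fZd : ∀ d ≤ k, f (vZ (k - d)) = 2 ^ d := by
    intro d
    induction d with
    | zero =>
      intro _
      have h := hf (vZ (k + 1)) (mZ _ (by omega))
      rw [mchips_eq, yv_Zlast, in_Zs k φ _ (by omega), deg_Zlast, xv_Zs, KK_last] at h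
      simp at h
      simp
      omega
    | succ d ih =>
      intro hd
      have ih := ih (by omega)
      have h := hf (vZ (k - (d + 1) + 1)) (mZ _ (by omega))
      rw [mchips_eq, yv_Zs φ (by omega), in_Zs k φ _ (by omega), deg_Zs k φ (by omega), xv_Zs] at h
      rw [show k - (d + 1) + 1 = k - d by omega, ih] at h
      have h2 : (KK k φ (k - d) : ℤ) * ((f (vZ (k - (d + 1))) : ℤ) - 2 * (2 ^ d : ℕ)) = 0 := by
        push_cast at h ⊢
        linarith
      rcases mul_eq_zero.1 h2 with h3 | h3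
      · exact absurd h3 (hKpos _).ne'
      · rw [pow_succ]
        omega
  have fZ : ∀ j ≤ k, f (vZ j) = 2 ^ k / 2 ^ j := by
    intro j hj
    have := fZd (k - j) (by omega)
    rw [show k - (k - j) = j by omega] at this
    rw [this, Nat.pow_div hj (by norm_num)]
  have fY : ∀ j ≤ k, f (vY j) = yq (2 ^ k) j := by
    intro j hj
    have h := hf (vY j) (mY j (by omega))
    rcases Nat.lt_or_ge j k with hjk | hjk
    · rw [mchips_eq, yv_Y φ hjk, in_Y k φ _ (by omega), deg_Y k φ (by omega), xv_Y, fZ j hj] at h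
      rw [yq_two_pow hjk]
      rw [two_pow_div hjk] at h
      have h2 : (KK k φ (j + 1) : ℤ) * ((2 ^ k / 2 ^ (j + 1) : ℕ) - (f (vY j) : ℤ)) = 0 := by
        push_cast at h ⊢
        linarith
      rcases mul_eq_zero.1 h2 with h3 | h3
      · exact absurd h3 (hKpos _).ne'
      · omega
    · have : j = k := by omega
      subst this
      rw [mchips_eq, yv_Ylast, in_Y j φ _ (by omega), deg_Y j φ (by omega), xv_Y, fZ j hj,
        KK_last, hk1] at h
      unfold yq
      rw [hk1]
      push_cast at h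
      omega
  have fSY : ∀ j ≤ k, ∑ i ∈ range j, (f (vY i) : ℤ) = ((2 ^ k : ℕ) : ℤ) - (2 ^ k / 2 ^ j : ℕ) := by
    intro j hj
    rw [← sum_yq_int]
    apply Finset.sum_congr rfl
    intro i hi
    rw [Finset.mem_range] at hi
    rw [fY i (by omega)]
  have fB : ∀ j < k, ∀ s, f (vB j s) = 2 ^ k := by
    intro j hj s
    have h := hf (vB j s) (mB j hj s)
    have e := two_pow_div hj
    cases s
    · rw [mchips_eq, yv_Bf, in_Bf k φ _ hj, deg_B, xv_Bf, fSY j hj.le, fY j hj.le,
        yq_two_pow hj, e] at h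
      have h2 : (EE φ : ℤ) * (((2 ^ k : ℕ) : ℤ) - (f (vB j false) : ℤ)) = 0 := by
        push_cast at h ⊢
        linarith
      rcases mul_eq_zero.1 h2 with h3 | h3
      · exact absurd h3 hEpos.ne'
      · omega
    · rw [mchips_eq, yv_Bt, in_Bt k φ _ hj, deg_B, xv_Bt, fSY j hj.le, fZ (j + 1) (by omega), e] at h
      have h2 : (EE φ : ℤ) * (((2 ^ k : ℕ) : ℤ) - (f (vB j true) : ℤ)) = 0 := by
        push_cast at h ⊢
        linarith
      rcases mul_eq_zero.1 h2 with h3 | h3
      · exact absurd h3 hEpos.ne'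
      · omega
  have fZ0 : f (vZ 0) = 2 ^ k := by rw [fZ 0 (by omega)]; simp
  have fA : ∀ c < φ.length, f (vA c) = 2 ^ k := by
    intro c hc
    have h := hf (vA c) (mA c hc)
    rw [mchips_eq, yv_A, in_A k φ _ (fun l hl => H _ (getD_mem hc) l hl), deg_A, xv_A, fZ0] at h
    have hcl : ∀ l ∈ φ.getD c [], l.1 < k := H _ (getD_mem hc)
    generalize φ.getD c [] = cl at h hcl
    have h1 : (cl.map (fun l => (f (vB l.1 l.2) : ℤ))).sum = cl.length * ((2 ^ k : ℕ) : ℤ) := by
      have : cl.map (fun l => (f (vB l.1 l.2) : ℤ)) = cl.map (fun _ => ((2 ^ k : ℕ) : ℤ)) := by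
        apply List.map_congr_left
        intro l hl
        rw [fB l.1 (hcl l hl) l.2]
      rw [this]
      simp
    rw [h1] at h
    have h2 : ((EE φ : ℤ) + cl.length) * (((2 ^ k : ℕ) : ℤ) - (f (vA c) : ℤ)) = 0 := by
      push_cast at h ⊢
      linarith
    rcases mul_eq_zero.1 h2 with h3 | h3
    · have : (0 : ℤ) ≤ cl.length := by positivity
      linarith
    · omega
  -- the satisfying assignment
  obtain ⟨v, hv⟩ := hφ
  obtain ⟨Q, hQ, hd⟩ := exists_digits v k
  obtain ⟨g, hgdef⟩ : ∃ g : BV → ℕ, g = mk4 (fun j => if j ≤ k then Q / 2 ^ j else f (vZ j))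
    (fun j => yq Q j) (fun j s => Q + hq Q j s) (fun _ => Q) := ⟨_, rfl⟩
  have gZ : ∀ j ≤ k, g (vZ j) = Q / 2 ^ j := by intro j hj; simp [hgdef, hj]
  have gZl : g (vZ (k + 1)) = f (vZ (k + 1)) := by simp [hgdef]
  have gY : ∀ j, g (vY j) = yq Q j := by intro j; simp [hgdef]
  have gB : ∀ j s, g (vB j s) = Q + hq Q j s := by intro j s; simp [hgdef]
  have gA : ∀ c, g (vA c) = Q := by intro c; simp [hgdef]
  have gSY : ∀ j, ∑ i ∈ range j, (g (vY i) : ℤ) = (Q : ℤ) - (Q / 2 ^ j : ℕ) := by
    intro j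
    rw [← sum_yq_int]
    apply Finset.sum_congr rfl
    intro i _
    rw [gY i]
  obtain ⟨w, hw, hlt, hle⟩ := hst g (by
      intro w hw
      rcases mem_baseOf.1 hw with ⟨j, hj, rfl⟩ | ⟨j, hj, rfl⟩ | ⟨j, hj, s, rfl⟩ | ⟨c, hc, rfl⟩
      · rcases Nat.lt_or_ge j (k + 1) with hj' | hj'
        · rw [gZ j (by omega), fZ j (by omega)]
          exact Nat.div_le_div_right hQ.le
        · have : j = k + 1 := by omega
          subst this
          rw [gZl]
      · rw [gY, fY j (by omega)]
        exact yq_mono hQ.le j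
      · rw [gB, fB j hj]
        have := hq_le Q j s
        omega
      · rw [gA, fA c hc]
        exact hQ.le)
    ⟨vZ 0, mZ 0 (by omega), by rw [gZ 0 (by omega), fZ0]; simpa using hQ⟩
  rcases mem_baseOf.1 hw with ⟨j, hj, rfl⟩ | ⟨j, hj, rfl⟩ | ⟨j, hj, s, rfl⟩ | ⟨c, hc, rfl⟩
  · rcases Nat.eq_zero_or_pos j with rfl | hj0
    · -- the vertex `Z 0`
      rw [mchips_eq, in_Z0, deg_Z0', xv_Z0, gZ 0 (by omega)] at hle
      have hfl := flow_main k φ H Q (by omega) (fun _ => 0)
      have c1 : ∑ j ∈ range (k + 1), 2 * (g (vY j) : ℤ) = ∑ j ∈ range (k + 1), 2 * (yq Q j : ℤ) := by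
        apply Finset.sum_congr rfl
        intro i _
        rw [gY]
      have c2 : ∑ j ∈ range k, (((EE φ : ℤ) - occ φ.flatten j true) * g (vB j true) +
          ((EE φ : ℤ) - occ φ.flatten j false) * g (vB j false)) =
          ∑ j ∈ range k, (((EE φ : ℤ) - occ φ.flatten j true) * (Q + hq Q j true : ℤ) +
          ((EE φ : ℤ) - occ φ.flatten j false) * (Q + hq Q j false : ℤ)) := by
        apply Finset.sum_congr rfl
        intro i _
        rw [gB, gB]
        push_cast
        ring
      have c3 : ∑ c ∈ range φ.length, ((EE φ : ℤ) + (φ.getD c []).length) * g (vA c) =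
          ∑ c ∈ range φ.length, ((EE φ : ℤ) + (φ.getD c []).length) *
            (Q + (fun _ : List (ℕ × Bool) => (0 : ℤ)) (φ.getD c [])) := by
        apply Finset.sum_congr rfl
        intro i _
        rw [gA]
        ring
      rw [c1, c2, c3, hfl] at hle
      have hS : (φ.map (fun c => ((EE φ : ℤ) + c.length) * (fun _ : List (ℕ × Bool) => (0 : ℤ)) c -
        (c.map (fun l => (hq Q l.1 l.2 : ℤ))).sum)).sum ≤ 0 := by
        have key : ∀ ψ : CNF, (ψ.map (fun c => ((EE φ : ℤ) + c.length) *
          (fun _ : List (ℕ × Bool) => (0 : ℤ)) c -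
          (c.map (fun l => (hq Q l.1 l.2 : ℤ))).sum)).sum ≤ 0 := by
          intro ψ
          induction ψ with
          | nil => simp
          | cons c ψ ih =>
            rw [List.map_cons, List.sum_cons]
            have h0 : ∀ u : List (ℕ × Bool), 0 ≤ (u.map (fun l => (hq Q l.1 l.2 : ℤ))).sum := by
              intro u
              apply List.sum_nonneg
              intro x hx
              obtain ⟨l, _, rfl⟩ := List.mem_map.1 hx
              positivity
            have := h0 c
            simp only [mul_zero, zero_sub] at ih ⊢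
            linarith
        exact key φ
      simp only [pow_zero, Nat.div_one] at hle
      linarith
    · obtain ⟨i, rfl⟩ : ∃ i, j = i + 1 := ⟨j - 1, by omega⟩
      rcases Nat.lt_or_ge i k with hi | hi
      · rw [mchips_eq, in_Zs k φ _ (by omega), deg_Zs k φ hi, xv_Zs, gZ i (by omega),
          gZ (i + 1) (by omega)] at hle
        have h5 := div_succ Q i
        have h6 : ((Q / 2 ^ i : ℕ) : ℤ) - 2 * (Q / 2 ^ (i + 1) : ℕ) ≤ 1 := by omega
        have h7 := mul_le_mul_of_nonneg_left h6 (hKpos (i + 1)).le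
        have h8 := hKpos (i + 1)
        push_cast at hle h7
        linarith
      · have : i = k := by omega
        subst this
        rw [gZl] at hlt
        exact lt_irrefl _ hlt
  · rw [mchips_eq, in_Y k φ _ (by omega), deg_Y k φ (by omega), xv_Y, gZ j (by omega), gY] at hle
    have h6 : 1 + ((Q / 2 ^ j : ℕ) : ℤ) - 2 * (yq Q j : ℕ) ≤ 1 := by
      unfold yq
      omega
    have h7 := mul_le_mul_of_nonneg_left h6 (hKpos (j + 1)).le
    have h8 := hKpos (j + 1)
    push_cast at hle h7
    linarith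
  · cases s
    · rw [mchips_eq, in_Bf k φ _ hj, deg_B, xv_Bf, gSY, gY, gB] at hle
      have h6 : 2 * (yq Q j : ℤ) + ((Q : ℤ) - (Q / 2 ^ j : ℕ)) - ((Q + hq Q j false : ℕ) : ℤ) = 0 := by
        have := hq_false Q j
        unfold yq
        omega
      have h7 : (EE φ : ℤ) * (2 * (yq Q j : ℤ) + ((Q : ℤ) - (Q / 2 ^ j : ℕ)) -
        ((Q + hq Q j false : ℕ) : ℤ)) = 0 := by rw [h6]; ring
      linarith
    · rw [mchips_eq, in_Bt k φ _ hj, deg_B, xv_Bt, gSY, gZ (j + 1) (by omega), gB] at hle
      have h6 : 1 + 2 * ((Q / 2 ^ (j + 1) : ℕ) : ℤ) + ((Q : ℤ) - (Q / 2 ^ j : ℕ)) -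
        ((Q + hq Q j true : ℕ) : ℤ) = 0 := by
        have := hq_true Q j
        have h5 := div_succ Q j
        omega
      have h7 : (EE φ : ℤ) * (1 + 2 * ((Q / 2 ^ (j + 1) : ℕ) : ℤ) + ((Q : ℤ) - (Q / 2 ^ j : ℕ)) -
        ((Q + hq Q j true : ℕ) : ℤ)) = 0 := by rw [h6]; ring
      linarith
  · have hmem := getD_mem hc
    rw [mchips_eq, in_A k φ _ (fun l hl => H _ hmem l hl), deg_A, xv_A, gZ 0 (by omega), gA] at hle
    have hcl : ∀ l ∈ φ.getD c [], l.1 < k := H _ hmem
    have hcs := hv _ hmem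
    generalize φ.getD c [] = cl at hle hcl hcs
    have h1 : ∀ u : List (ℕ × Bool), (u.map (fun l => (g (vB l.1 l.2) : ℤ))).sum ≤
        u.length * (Q + 1) := by
      intro u
      induction u with
      | nil => simp
      | cons l u ih =>
        have := hq_le Q l.1 l.2
        have : (hq Q l.1 l.2 : ℤ) ≤ 1 := by exact_mod_cast this
        simp only [List.map_cons, List.sum_cons, List.length_cons, gB]
        simp only [gB] at ih
        push_cast
        push_cast at ih
        linarith
    have h2 : ∀ u : List (ℕ × Bool), (∀ l ∈ u, l.1 < k) → (∃ l ∈ u, v l.1 = l.2) →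
        (u.map (fun l => (g (vB l.1 l.2) : ℤ))).sum + 1 ≤ u.length * (Q + 1) := by
      intro u
      induction u with
      | nil => simp
      | cons l u ih =>
        intro hu hex
        obtain ⟨l', hl', hvl⟩ := hex
        rcases List.mem_cons.1 hl' with rfl | hl'
        · have e1 := h1 u
          have e2 : hq Q l'.1 l'.2 = 0 := by
            unfold hq
            rw [if_pos]
            rw [hd l'.1 (hu l' (List.mem_cons_self ..)), hvl]
          simp only [List.map_cons, List.sum_cons, List.length_cons]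
          rw [gB, e2]
          push_cast
          linarith
        · have e1 := ih (fun l hl => hu l (List.mem_cons_of_mem _ hl)) ⟨l', hl', hvl⟩
          have := hq_le Q l.1 l.2
          have e3 : (hq Q l.1 l.2 : ℤ) ≤ 1 := by exact_mod_cast this
          simp only [List.map_cons, List.sum_cons, List.length_cons]
          rw [gB]
          push_cast
          linarith
    have h3 := h2 cl hcl hcs
    simp only [pow_zero, Nat.div_one] at hle
    push_cast at hle
    nlinarith

/-- The criterion. -/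
theorem criterion (k : ℕ) (φ : CNF) (H : ∀ c ∈ φ, ∀ l ∈ c, l.1 < k) :
    Reach (fun i j : Fin (vertsOf (baseOf k φ.length) (gm k φ)).length =>
        adj ((vertsOf (baseOf k φ.length) (gm k φ)).get i)
          ((vertsOf (baseOf k φ.length) (gm k φ)).get j))
      (fun i => lift (xv k φ) ((vertsOf (baseOf k φ.length) (gm k φ)).get i))
      (fun i => lift (yv k φ) ((vertsOf (baseOf k φ.length) (gm k φ)).get i)) ↔ ¬ Sat φ := by
  rw [reach_subdiv_iff _ (nodup_baseOf _ _)]
  constructor
  · rintro ⟨f, hf, hst⟩ hφ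
    exact not_static k φ H hφ f hf hst
  · intro hφ
    exact ⟨ff k, ff_spec k φ H, fun g hg hne => ff_static k φ H hφ g hg hne⟩

end Pool.Agent.Work.MP_5100e0_lc
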