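import Pool.Agent.Work.MP_5100e0_lc.Reduction
import Pool.Agent.Work.MP_5100e0_lc.EncInj
import Pool.Agent.Work.TMLib.CookLevin

/-!
Chip-firing reachability is hard for coNP.
-/

namespace Pool.Agent.Work.MP_5100e0_lc

open TMLib

/-- Numbering of the bits. -/
def boolEquiv : Bool ≃ Fin 2 where
  toFun b := bif b then 1 else 0
  invFun i := decide (i = 1)
  left_inv := by rintro (_|_) <;> rfl
  right_inv := by
    intro i
    fin_cases i <;> rfl

theorem polyF_toBools : PolyF (fun w : List (Fin 2) => w.map boolEquiv.symm) := by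
  refine PolyF.map (f := fun _ i => boolEquiv.symm i) (by fun_prop) ?_
  have h : PolyF (fun i : Fin 2 => (boolEquiv.symm i)) := by
    refine PolyF.of_G (PolyG.ite (PolyG.refl _) (PolyG.const _ (de false)) (PolyG.const _ (de true)))
      fun i => ?_
    fin_cases i <;> rfl
  exact PolyF.comp (f := fun i : Fin 2 => boolEquiv.symm i)
    (g := fun p : List (Fin 2) × Fin 2 => p.2) h (by fun_prop)

theorem coNPHard_simple : CoNPHard encInst SimpleDigraph Reachable := by
  intro L hL
  obtain ⟨g, hg, hgw⟩ := cook_levin Lᶜ hL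
  refine ⟨fun w => chipInst (g w), ?_, fun w => ⟨chipInst_simple _, ?_⟩⟩
  · have h1 : PolyF (fun w : List Bool => (encInst (chipInst (g w))).map symEquiv) :=
      PolyF.comp (f := fun φ : CNF => (encInst (chipInst φ)).map symEquiv) (g := g) polyF_enc hg
    have h2 : PolyF (fun w : List (Fin 2) =>
        (encInst (chipInst (g (w.map boolEquiv.symm)))).map symEquiv) :=
      PolyF.comp (f := fun w : List Bool => (encInst (chipInst (g w))).map symEquiv)
        (g := fun w : List (Fin 2) => w.map boolEquiv.symm) h1 polyF_toBools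
    refine PolyTime.of_PolyF boolEquiv symEquiv h2 fun w => ?_
    simp
  · rw [chipInst_reachable, ← hgw w]
    simp

theorem coNPHard_all : CoNPHard encInst Set.univ Reachable := by
  intro L hL
  obtain ⟨f, hf, hfw⟩ := coNPHard_simple L hL
  exact ⟨f, hf, fun w => ⟨Set.mem_univ _, (hfw w).2⟩⟩

end Pool.Agent.Work.MP_5100e0_lc
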