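import Pool.Agent.Work.MP_5100e0_lc.Gadget5
import Pool.Agent.Work.TMLib.Lib2
import Pool.Agent.Work.TMLib.FP
import Mathlib.Tactic

/-!
The reduction from the complement of satisfiability to chip-firing reachability, and its
computation in polynomial time.
-/

namespace Pool.Agent.Work.MP_5100e0_lc

open TMLib

set_option linter.unusedSimpArgs false
set_option linter.unusedSectionVars false

/-- A bound on the variables of the formula. -/
def kOf (φ : CNF) : ℕ := (φ.flatten.map (fun l => l.1)).sum + 1

theorem lt_kOf {φ : CNF} : ∀ c ∈ φ, ∀ l ∈ c, l.1 < kOf φ := by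
  intro c hc l hl
  have h : l.1 ∈ φ.flatten.map (fun l => l.1) :=
    List.mem_map.2 ⟨l, List.mem_flatten.2 ⟨c, hc, hl⟩, rfl⟩
  have := List.single_le_sum (fun x _ => Nat.zero_le x) _ h
  unfold kOf
  omega

/-- The vertices of the simple digraph of the formula. -/
def vertsF (φ : CNF) : List (Tag BV) := vertsOf (baseOf (kOf φ) φ.length) (gm (kOf φ) φ)

/-- The instance of the chip-firing reachability problem attached to a formula. -/
def chipInst (φ : CNF) : Inst where
  n := (vertsF φ).length
  mult i j := adj ((vertsF φ).get i) ((vertsF φ).get j)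
  noLoop _ := adj_self _
  x i := lift (xv (kOf φ) φ) ((vertsF φ).get i)
  y i := lift (yv (kOf φ) φ) ((vertsF φ).get i)

theorem chipInst_simple (φ : CNF) : chipInst φ ∈ SimpleDigraph := fun _ _ => adj_le _ _

theorem chipInst_reachable (φ : CNF) : chipInst φ ∈ Reachable ↔ ¬ Sat φ :=
  criterion (kOf φ) φ lt_kOf

/-! ### The string of the instance -/

theorem flatMap_finRange {α β : Type} (l : List α) (F : α → List β) :
    (List.finRange l.length).flatMap (fun i => F (l.get i)) = l.flatMap F := by
  have : (List.finRange l.length).flatMap (fun i => F (l.get i)) =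
      ((List.finRange l.length).map l.get).flatMap F := by
    rw [List.flatMap_map]
  rw [this, ← List.ofFn_eq_map, List.ofFn_get]

/-- Natural-number versions of the distributions. -/
def xn (k : ℕ) (φ : CNF) (v : BV) : ℕ :=
  if v.1 = 0 then (if v.2.1 = 0 then k * EE φ + 1 + φ.length * EE φ else 0)
  else if v.1 = 1 then KK k φ (v.2.1 + 1)
  else if v.1 = 2 then (if v.2.2 = true then EE φ else 0)
  else EE φ

theorem xn_eq (k : ℕ) (φ : CNF) (v : BV) : (xn k φ v : ℤ) = xv k φ v := by
  unfold xn xv
  split_ifs <;> simp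

def yn (k : ℕ) (φ : CNF) (v : BV) : ℕ :=
  if v = vZ (k + 1) then 1 else if v = vY k then 0 else xn k φ v

theorem yn_eq (k : ℕ) (φ : CNF) (v : BV) : (yn k φ v : ℤ) = yv k φ v := by
  unfold yn yv
  split_ifs <;> simp [xn_eq]

def liftn (x : BV → ℕ) : Tag BV → ℕ := fun t => if t.1 = false then x t.2.1 else 0

theorem liftn_eq (x : BV → ℕ) (X : BV → ℤ) (h : ∀ v, (x v : ℤ) = X v) (t : Tag BV) :
    (liftn x t : ℤ) = lift X t := by
  unfold liftn lift
  split_ifs <;> simp [h]

theorem encInt_nat (n : ℕ) : encInt (n : ℤ) = encNat n := by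
  unfold encInt
  rw [if_neg (by omega)]
  simp

theorem encInst_chipInst (φ : CNF) : encInst (chipInst φ) =
    encNat (vertsF φ).length ++
    (vertsF φ).flatMap (fun p => (vertsF φ).flatMap (fun q => encNat (adj p q))) ++
    (vertsF φ).flatMap (fun p => encNat (liftn (xn (kOf φ) φ) p)) ++
    (vertsF φ).flatMap (fun p => encNat (liftn (yn (kOf φ) φ) p)) := by
  unfold encInst
  have h1 : (List.finRange (chipInst φ).n).flatMap (fun v => (List.finRange (chipInst φ).n).flatMap
      (fun w => encNat ((chipInst φ).mult v w))) =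
      (vertsF φ).flatMap (fun p => (vertsF φ).flatMap (fun q => encNat (adj p q))) := by
    show (List.finRange (vertsF φ).length).flatMap (fun v => (List.finRange (vertsF φ).length).flatMap
      (fun w => encNat (adj ((vertsF φ).get v) ((vertsF φ).get w)))) = _
    rw [← flatMap_finRange (vertsF φ)
      (fun p => (vertsF φ).flatMap (fun q => encNat (adj p q)))]
    have : ∀ v, (List.finRange (vertsF φ).length).flatMap (fun w =>
      encNat (adj ((vertsF φ).get v) ((vertsF φ).get w))) =
      (vertsF φ).flatMap (fun q => encNat (adj ((vertsF φ).get v) q)) := fun v =>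
      flatMap_finRange (vertsF φ) (fun q => encNat (adj ((vertsF φ).get v) q))
    simp only [this]
  have h2 : (List.finRange (chipInst φ).n).flatMap (fun v => encInt ((chipInst φ).x v)) =
      (vertsF φ).flatMap (fun p => encNat (liftn (xn (kOf φ) φ) p)) := by
    show (List.finRange (vertsF φ).length).flatMap (fun v =>
      encInt (lift (xv (kOf φ) φ) ((vertsF φ).get v))) = _
    rw [← flatMap_finRange (vertsF φ) (fun p => encNat (liftn (xn (kOf φ) φ) p))]
    have : ∀ v, encInt (lift (xv (kOf φ) φ) ((vertsF φ).get v)) =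
        encNat (liftn (xn (kOf φ) φ) ((vertsF φ).get v)) := fun v => by
      rw [← liftn_eq _ _ (xn_eq (kOf φ) φ), encInt_nat]
    simp only [this]
  have h3 : (List.finRange (chipInst φ).n).flatMap (fun v => encInt ((chipInst φ).y v)) =
      (vertsF φ).flatMap (fun p => encNat (liftn (yn (kOf φ) φ) p)) := by
    show (List.finRange (vertsF φ).length).flatMap (fun v =>
      encInt (lift (yv (kOf φ) φ) ((vertsF φ).get v))) = _
    rw [← flatMap_finRange (vertsF φ) (fun p => encNat (liftn (yn (kOf φ) φ) p))]
    have : ∀ v, encInt (lift (yv (kOf φ) φ) ((vertsF φ).get v)) =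
        encNat (liftn (yn (kOf φ) φ) ((vertsF φ).get v)) := fun v => by
      rw [← liftn_eq _ _ (yn_eq (kOf φ) φ), encInt_nat]
    simp only [this]
  rw [h1, h2, h3]
  rfl

/-! ### Polynomial time -/

/-- Numbering of the output alphabet. -/
def symEquiv : Sym ≃ Fin 4 where
  toFun s := match s with
    | .zero => 0
    | .one => 1
    | .minus => 2
    | .stop => 3
  invFun i := match i with
    | 0 => .zero
    | 1 => .one
    | 2 => .minus
    | 3 => .stop
  left_inv := by rintro (_|_|_|_) <;> rfl
  right_inv := by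
    intro i
    fin_cases i <;> rfl

instance : Fintype Sym := Fintype.ofEquiv _ symEquiv.symm

/-- `encNat` over the numbered alphabet. -/
def eN (n : ℕ) : List (Fin 4) := n.bits.map (fun b => bif b then 1 else 0) ++ [3]

theorem eN_eq (n : ℕ) : (encNat n).map symEquiv = eN n := by
  unfold encNat eN
  rw [List.map_append, List.map_map]
  congr 1
  apply List.map_congr_left
  intro b _
  cases b <;> rfl

@[fun_prop]
theorem polyF_eN {α : Type} [DE α] {f : α → ℕ} (hf : PolyF f) : PolyF (fun a => eN (f a)) := by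
  refine PolyF.comp (f := eN) ?_ hf
  unfold eN
  refine PolyF.append (PolyF.map (f := fun _ b => bif b then 1 else 0) (by fun_prop) ?_) (by fun_prop)
  fun_prop

variable {α : Type} [DE α]

theorem polyF_iteP {β : Type} [DE β] {c : α → Prop} [DecidablePred c] {f g : α → β}
    (hc : PolyF (fun a => decide (c a))) (hf : PolyF f) (hg : PolyF g) :
    PolyF (fun a => if c a then f a else g a) := PolyF.ite hc hf hg

@[fun_prop]
theorem polyF_EE {f : α → CNF} (hf : PolyF f) : PolyF (fun a => EE (f a)) := by
  have h : PolyF (fun φ : CNF => (φ.flatMap (fun c => c)).length + 1) := by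
    refine PolyF.succ (PolyF.length (PolyF.flatMap (f := fun _ c => c) (by fun_prop) (by fun_prop)))
  refine PolyF.comp (f := EE) (h.congrF fun φ => ?_) hf
  unfold EE
  rw [List.flatMap_id']

theorem polyF_flatten {β : Type} [DE β] {f : α → List (List β)} (hf : PolyF f) :
    PolyF (fun a => (f a).flatten) := by
  have h : PolyF (fun φ : List (List β) => φ.flatMap (fun c => c)) :=
    PolyF.flatMap (f := fun _ c => c) (by fun_prop) (by fun_prop)
  exact PolyF.comp (f := List.flatten) (h.congrF fun φ => by rw [List.flatMap_id']) hf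

@[fun_prop]
theorem polyF_KK {k j : α → ℕ} {f : α → CNF} (hk : PolyF k) (hf : PolyF f) (hj : PolyF j) :
    PolyF (fun a => KK (k a) (f a) (j a)) := by
  unfold KK
  fun_prop

@[fun_prop]
theorem polyF_kOf {f : α → CNF} (hf : PolyF f) : PolyF (fun a => kOf (f a)) := by
  refine PolyF.comp (f := kOf) ?_ hf
  unfold kOf
  exact PolyF.succ (PolyF.sum (PolyF.map (f := fun _ (l : ℕ × Bool) => l.1)
    (polyF_flatten (by fun_prop)) (by fun_prop)))

/-- The input of `gm` as one argument. -/
theorem polyF_gm : PolyF (fun p : (ℕ × CNF) × BV × BV => gm p.1.1 p.1.2 p.2.1 p.2.2) := by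
  unfold gm
  have hlen1 : PolyF (fun p : (ℕ × CNF) × BV × BV =>
      (p.1.2.flatten.filter (fun l => !decide (l.1 = p.2.1.2.1 ∧ l.2 = p.2.1.2.2))).length) := by
    refine PolyF.length (PolyF.filter (l := fun p : (ℕ × CNF) × BV × BV => p.1.2.flatten)
      (f := fun p l => !decide (l.1 = p.2.1.2.1 ∧ l.2 = p.2.1.2.2))
      (polyF_flatten (by fun_prop)) ?_)
    fun_prop
  have hlen2 : PolyF (fun p : (ℕ × CNF) × BV × BV =>
      ((p.1.2.getD p.2.2.2.1 []).filter (fun l => decide (l.1 = p.2.1.2.1 ∧ l.2 = p.2.1.2.2))).length) := by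
    refine PolyF.length (PolyF.filter (l := fun p : (ℕ × CNF) × BV × BV => p.1.2.getD p.2.2.2.1 [])
      (f := fun p l => decide (l.1 = p.2.1.2.1 ∧ l.2 = p.2.1.2.2))
      (by fun_prop) ?_)
    fun_prop
  have hlen3 : PolyF (fun p : (ℕ × CNF) × BV × BV => (p.1.2.getD p.2.1.2.1 []).length) := by
    fun_prop
  refine polyF_iteP (by fun_prop) ?_ (polyF_iteP (by fun_prop) ?_ (polyF_iteP (by fun_prop) ?_
    (polyF_iteP (by fun_prop) ?_ (PolyF.const 0))))
  · refine polyF_iteP (by fun_prop) (polyF_iteP (by fun_prop) (by fun_prop) (PolyF.const 0)) ?_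
    refine polyF_iteP (by fun_prop) (polyF_iteP (by fun_prop) (by fun_prop) (PolyF.const 0)) ?_
    refine polyF_iteP (by fun_prop) (polyF_iteP (by fun_prop) (by fun_prop) (PolyF.const 0)) ?_
    exact polyF_iteP (by fun_prop) (by fun_prop) (PolyF.const 0)
  · refine polyF_iteP (by fun_prop)
      (polyF_iteP (by fun_prop) (PolyF.const 2) (PolyF.const 0)) ?_
    refine polyF_iteP (by fun_prop) ?_ (PolyF.const 0)
    refine polyF_iteP (by fun_prop) (by fun_prop) ?_
    exact polyF_iteP (by fun_prop) (by fun_prop) (PolyF.const 0)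
  · refine polyF_iteP (by fun_prop)
      (polyF_iteP (by fun_prop) (PolyF.succ hlen1) (PolyF.const 0)) ?_
    exact polyF_iteP (by fun_prop) hlen2 (PolyF.const 0)
  · exact polyF_iteP (by fun_prop)
      (polyF_iteP (by fun_prop) (PolyF.add (by fun_prop) hlen3) (PolyF.const 0)) (PolyF.const 0)

theorem polyF_adj : PolyF (fun p : Tag BV × Tag BV => adj p.1 p.2) := by
  unfold adj
  exact polyF_iteP (by fun_prop) (PolyF.const 1)
    (polyF_iteP (by fun_prop) (PolyF.const 1) (PolyF.const 0))

theorem polyF_baseOf : PolyF (fun p : ℕ × ℕ => baseOf p.1 p.2) := by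
  unfold baseOf
  refine PolyF.append (PolyF.append (PolyF.append ?_ ?_) ?_) ?_
  · refine PolyF.map (f := fun _ j => vZ j) (by fun_prop) ?_
    unfold vZ
    fun_prop
  · refine PolyF.map (f := fun _ j => vY j) (by fun_prop) ?_
    unfold vY
    fun_prop
  · refine PolyF.flatMap (f := fun _ j => [vB j true, vB j false]) (by fun_prop) ?_
    unfold vB
    fun_prop
  · refine PolyF.map (f := fun _ j => vA j) (by fun_prop) ?_
    unfold vA
    fun_prop

theorem polyF_vertsF : PolyF vertsF := by
  unfold vertsF vertsOf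
  have hbase : PolyF (fun φ : CNF => baseOf (kOf φ) φ.length) :=
    PolyF.comp (f := fun p : ℕ × ℕ => baseOf p.1 p.2) (g := fun φ : CNF => (kOf φ, φ.length))
      polyF_baseOf (by fun_prop)
  refine PolyF.append ?_ ?_
  · refine PolyF.map (f := fun _ v => sv v) hbase ?_
    unfold sv
    fun_prop
  · refine PolyF.flatMap (f := fun φ v => (baseOf (kOf φ) φ.length).flatMap (fun w =>
      (List.range (gm (kOf φ) φ v w)).map (fun i => se v w i))) hbase ?_
    refine PolyF.flatMap (l := fun p : CNF × BV => baseOf (kOf p.1) p.1.length)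
      (f := fun p w => (List.range (gm (kOf p.1) p.1 p.2 w)).map (fun i => se p.2 w i))
      (PolyF.comp (f := fun φ : CNF => baseOf (kOf φ) φ.length) (g := fun p : CNF × BV => p.1)
        hbase (by fun_prop)) ?_
    refine PolyF.map (l := fun p : (CNF × BV) × BV => List.range (gm (kOf p.1.1) p.1.1 p.1.2 p.2))
      (f := fun p i => se p.1.2 p.2 i) ?_ ?_
    · refine PolyF.range ?_
      exact PolyF.comp (f := fun p : (ℕ × CNF) × BV × BV => gm p.1.1 p.1.2 p.2.1 p.2.2)
        (g := fun p : (CNF × BV) × BV => ((kOf p.1.1, p.1.1), (p.1.2, p.2))) polyF_gm (by fun_prop)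
    · unfold se
      fun_prop

theorem polyF_xn : PolyF (fun p : CNF × BV => xn (kOf p.1) p.1 p.2) := by
  unfold xn
  exact polyF_iteP (by fun_prop) (polyF_iteP (by fun_prop) (by fun_prop) (PolyF.const 0))
    (polyF_iteP (by fun_prop) (by fun_prop)
      (polyF_iteP (by fun_prop) (polyF_iteP (by fun_prop) (by fun_prop) (PolyF.const 0))
        (by fun_prop)))

theorem polyF_yn : PolyF (fun p : CNF × BV => yn (kOf p.1) p.1 p.2) := by
  unfold yn vZ vY
  refine polyF_iteP (by fun_prop) (by fun_prop) (polyF_iteP (by fun_prop) (by fun_prop) polyF_xn)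

/-- The string of the instance over the numbered alphabet is computed in polynomial time. -/
theorem polyF_enc : PolyF (fun φ : CNF => (encInst (chipInst φ)).map symEquiv) := by
  have h : PolyF (fun φ : CNF => eN (vertsF φ).length ++
    (vertsF φ).flatMap (fun p => (vertsF φ).flatMap (fun q => eN (adj p q))) ++
    (vertsF φ).flatMap (fun p => eN (liftn (xn (kOf φ) φ) p)) ++
    (vertsF φ).flatMap (fun p => eN (liftn (yn (kOf φ) φ) p))) := by
    have hv := polyF_vertsF
    refine PolyF.append (PolyF.append (PolyF.append ?_ ?_) ?_) ?_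
    · exact polyF_eN (PolyF.length hv)
    · refine PolyF.flatMap (f := fun φ p => (vertsF φ).flatMap (fun q => eN (adj p q))) hv ?_
      refine PolyF.flatMap (l := fun p : CNF × Tag BV => vertsF p.1)
        (f := fun p q => eN (adj p.2 q))
        (PolyF.comp (f := vertsF) (g := fun p : CNF × Tag BV => p.1) hv (by fun_prop)) ?_
      refine polyF_eN ?_
      exact PolyF.comp (f := fun p : Tag BV × Tag BV => adj p.1 p.2)
        (g := fun p : (CNF × Tag BV) × Tag BV => (p.1.2, p.2)) polyF_adj (by fun_prop)
    · refine PolyF.flatMap (f := fun φ p => eN (liftn (xn (kOf φ) φ) p)) hv ?_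
      refine polyF_eN ?_
      unfold liftn
      refine polyF_iteP (by fun_prop) ?_ (by fun_prop)
      exact PolyF.comp (f := fun p : CNF × BV => xn (kOf p.1) p.1 p.2)
        (g := fun p : CNF × Tag BV => (p.1, p.2.2.1)) polyF_xn (by fun_prop)
    · refine PolyF.flatMap (f := fun φ p => eN (liftn (yn (kOf φ) φ) p)) hv ?_
      refine polyF_eN ?_
      unfold liftn
      refine polyF_iteP (by fun_prop) ?_ (by fun_prop)
      exact PolyF.comp (f := fun p : CNF × BV => yn (kOf p.1) p.1 p.2)
        (g := fun p : CNF × Tag BV => (p.1, p.2.2.1)) polyF_yn (by fun_prop)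
  refine h.congrF fun φ => ?_
  rw [encInst_chipInst]
  simp only [List.map_append, List.map_flatMap, eN_eq]

end Pool.Agent.Work.MP_5100e0_lc
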