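import Pool.Agent.Work.MP_5100e0_lc.Defs
import Mathlib.Tactic

/-!
A static characterisation of chip-firing reachability.
-/

namespace Pool.Agent.Work.MP_5100e0_lc

set_option linter.unusedSimpArgs false
set_option linter.unusedSectionVars false

open Finset

section general

variable {V : Type} [Fintype V] [DecidableEq V] (a : V → V → ℕ)

/-- The distribution after firing each vertex `v` exactly `g v` times from `x`. -/
def chips (x : V → ℤ) (g : V → ℕ) : V → ℤ :=
  fun w => x w + ∑ v, (a v w : ℤ) * g v - (outdeg a w : ℤ) * g w

theorem chips_zero (x : V → ℤ) : chips a x 0 = x := by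
  funext w
  simp [chips]

theorem chips_add_single (x : V → ℤ) (g : V → ℕ) (v : V) :
    chips a x (g + Pi.single v 1) = fire a v (chips a x g) := by
  funext w
  simp only [chips, fire, Pi.add_apply, Nat.cast_add]
  have h1 : ∑ u, (a u w : ℤ) * ((g u : ℤ) + ((Pi.single v 1 : V → ℕ) u : ℤ)) =
      ∑ u, (a u w : ℤ) * g u + (a v w : ℤ) := by
    simp only [mul_add, Finset.sum_add_distrib]
    congr 1
    rw [Finset.sum_eq_single v]
    · simp
    · intro b _ hb
      simp [Pi.single_apply, hb]
    · simp
  rw [h1]
  by_cases h : w = v
  · subst h
    simp
    ring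
  · simp [Pi.single_apply, h]
    ring

theorem Reach.static (ha : ∀ v, a v v = 0) {x y : V → ℤ} (h : Reach a x y) :
    ∃ f : V → ℕ, y = chips a x f ∧
      ∀ g : V → ℕ, g ≤ f → g ≠ f → ∃ v, g v < f v ∧ (outdeg a v : ℤ) ≤ chips a x g v := by
  induction h with
  | refl =>
    refine ⟨0, (chips_zero a x).symm, fun g hg hne => absurd ?_ hne⟩
    exact le_antisymm hg (fun v => Nat.zero_le _)
  | @tail y' z h1 h2 ih =>
    obtain ⟨f', hf', hst⟩ := ih
    obtain ⟨v, hv, hv0⟩ := h2
    refine ⟨f' + Pi.single v 1, ?_, ?_⟩
    · rw [chips_add_single, ← hf', hv]
    · intro g hg hne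
      have hleg : (outdeg a v : ℤ) ≤ chips a x f' v := by
        rw [← hf']
        rw [hv] at hv0
        simp [fire, ha v] at hv0
        exact hv0
      by_cases hle : g v ≤ f' v
      · have hgle : g ≤ f' := by
          intro w
          by_cases hw : w = v
          · rw [hw]; exact hle
          · have := hg w
            simpa [Pi.single_apply, hw] using this
        by_cases heq : g = f'
        · refine ⟨v, ?_, ?_⟩
          · rw [heq]; simp
          · rw [heq]; exact hleg
        · obtain ⟨w, hw, hw'⟩ := hst g hgle heq
          exact ⟨w, lt_of_lt_of_le hw (by simp), hw'⟩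
      · push Not at hle
        have hgv : g v = f' v + 1 := by
          have := hg v
          simp at this
          omega
        -- `g' = g - 1_v`
        set g' : V → ℕ := Function.update g v (f' v) with hg'
        have hgg' : g = g' + Pi.single v 1 := by
          funext w
          by_cases hw : w = v
          · subst hw; simp [hg', hgv]
          · simp [hg', Pi.single_apply, hw]
        have hle' : g' ≤ f' := by
          intro w
          by_cases hw : w = v
          · subst hw; simp [hg']
          · have := hg w
            simpa [Pi.single_apply, hw, hg'] using this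
        have hne' : g' ≠ f' := by
          intro h
          apply hne
          rw [hgg', h]
        obtain ⟨w, hw, hw'⟩ := hst g' hle' hne'
        have hwv : w ≠ v := by
          rintro rfl
          simp [hg'] at hw
        refine ⟨w, ?_, ?_⟩
        · simp only [hg', Function.update_of_ne hwv] at hw
          exact lt_of_lt_of_le hw (by simp)
        · rw [hgg', chips_add_single]
          simp only [fire, hwv, if_false]
          have : (0 : ℤ) ≤ (a v w : ℤ) := by positivity
          linarith

theorem reach_of_static (ha : ∀ v, a v v = 0) {x : V → ℤ} {f : V → ℕ}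
    (H : ∀ g : V → ℕ, g ≤ f → g ≠ f → ∃ v, g v < f v ∧ (outdeg a v : ℤ) ≤ chips a x g v) :
    Reach a x (chips a x f) := by
  have key : ∀ (n : ℕ) (g : V → ℕ), g ≤ f → ∑ v, (f v - g v) = n →
      Reach a (chips a x g) (chips a x f) := by
    intro n
    induction n with
    | zero =>
      intro g hg hn
      have : g = f := by
        funext v
        have h1 : f v - g v = 0 := Finset.sum_eq_zero_iff.1 hn v (mem_univ v)
        have h2 : g v ≤ f v := hg v
        omega
      rw [this]
      exact Relation.ReflTransGen.refl
    | succ n ih =>
      intro g hg hn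
      have hne : g ≠ f := by
        rintro rfl
        simp at hn
      obtain ⟨v, hv, hv'⟩ := H g hg hne
      have h1 : g + Pi.single v 1 ≤ f := by
        intro w
        by_cases hw : w = v
        · subst hw; simp; omega
        · simpa [Pi.single_apply, hw] using hg w
      have h2 : ∑ w, (f w - (g + Pi.single v 1 : V → ℕ) w) = n := by
        have e : ∑ w, (f w - g w) = ∑ w, (f w - (g + Pi.single v 1 : V → ℕ) w) + 1 := by
          have : ∀ w, f w - g w = (f w - (g + Pi.single v 1 : V → ℕ) w) + (Pi.single v 1 : V → ℕ) w := by
            intro w
            by_cases hw : w = v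
            · subst hw; simp; omega
            · simp [Pi.single_apply, hw]
          rw [Finset.sum_congr rfl (fun w _ => this w), Finset.sum_add_distrib]
          simp
        omega
      refine Relation.ReflTransGen.head ⟨v, (chips_add_single a x g v), ?_⟩ (ih _ h1 h2)
      rw [chips_add_single]
      simp only [fire, ha v, if_true, Nat.cast_zero, add_zero]
      linarith
  have := key _ 0 (fun v => Nat.zero_le _) rfl
  rwa [chips_zero] at this

end general

section lists

variable {T : Type}

/-- `chips` for digraphs whose vertices are the members of a list. -/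
def chipsL (verts : List T) (A : T → T → ℕ) (X : T → ℤ) (G : T → ℕ) (t : T) : ℤ :=
  X t + (verts.map (fun u => (A u t : ℤ) * G u)).sum - ((verts.map (A t)).sum : ℤ) * G t

theorem sum_get (verts : List T) {M : Type} [AddCommMonoid M] (F : T → M) :
    ∑ i : Fin verts.length, F (verts.get i) = (verts.map F).sum := by
  rw [← List.sum_ofFn]
  congr 1
  apply List.ext_get <;> simp

theorem reach_list_iff (verts : List T) (hnd : verts.Nodup) (A : T → T → ℕ)
    (hA : ∀ t, A t t = 0) (X Y : T → ℤ) :
    Reach (fun i j : Fin verts.length => A (verts.get i) (verts.get j))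
      (fun i => X (verts.get i)) (fun i => Y (verts.get i)) ↔
    ∃ F : T → ℕ, (∀ t ∈ verts, Y t = chipsL verts A X F t) ∧
      ∀ G : T → ℕ, (∀ t ∈ verts, G t ≤ F t) → (∃ t ∈ verts, G t < F t) →
        ∃ t ∈ verts, G t < F t ∧ ((verts.map (A t)).sum : ℤ) ≤ chipsL verts A X G t := by
  classical
  have hinj : Function.Injective verts.get := List.nodup_iff_injective_get.1 hnd
  have hch : ∀ (G : T → ℕ) (i : Fin verts.length),
      chips (fun i j : Fin verts.length => A (verts.get i) (verts.get j))
        (fun i => X (verts.get i)) (fun i => G (verts.get i)) i =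
      chipsL verts A X G (verts.get i) := by
    intro G i
    simp only [chips, chipsL, outdeg]
    rw [sum_get verts (fun u => (A u (verts.get i) : ℤ) * G u), sum_get verts (A (verts.get i))]
  have hout : ∀ i, outdeg (fun i j : Fin verts.length => A (verts.get i) (verts.get j)) i =
      (verts.map (A (verts.get i))).sum := by
    intro i
    simp only [outdeg]
    rw [sum_get verts (A (verts.get i))]
  constructor
  · intro h
    obtain ⟨f, hf, hst⟩ := Reach.static
      (fun i j : Fin verts.length => A (verts.get i) (verts.get j)) (fun v => hA _) h
    set F : T → ℕ := Function.extend verts.get f (fun _ => 0) with hF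
    have hFg : ∀ i, F (verts.get i) = f i := fun i => hinj.extend_apply _ _ _
    have hFf : (fun i => F (verts.get i)) = f := funext hFg
    refine ⟨F, ?_, ?_⟩
    · intro t ht
      obtain ⟨i, rfl⟩ := List.mem_iff_get.1 ht
      rw [← hch, hFf, ← hf]
    · intro G hG hne
      obtain ⟨v, hv1, hv2⟩ := hst (fun i => G (verts.get i))
        (fun i => by rw [← hFg i]; exact hG _ (List.get_mem _ _))
        (by
          rintro h
          obtain ⟨t, ht, hlt⟩ := hne
          obtain ⟨i, rfl⟩ := List.mem_iff_get.1 ht
          have := congrFun h i
          rw [← hFg i] at this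
          omega)
      refine ⟨verts.get v, List.get_mem _ _, ?_, ?_⟩
      · rw [hFg]; exact hv1
      · rw [← hch, ← hout]; exact hv2
  · rintro ⟨F, hF, hst⟩
    have := reach_of_static (fun i j : Fin verts.length => A (verts.get i) (verts.get j))
      (fun v => hA _) (x := fun i => X (verts.get i)) (f := fun i => F (verts.get i)) ?_
    · have h2 : chips (fun i j : Fin verts.length => A (verts.get i) (verts.get j))
        (fun i => X (verts.get i)) (fun i => F (verts.get i)) = fun i => Y (verts.get i) := by
        funext i
        rw [hch, hF _ (List.get_mem _ _)]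
      rwa [h2] at this
    · intro g hg hne
      set G : T → ℕ := Function.extend verts.get g (fun _ => 0) with hG
      have hGg : ∀ i, G (verts.get i) = g i := fun i => hinj.extend_apply _ _ _
      have hGf : (fun i => G (verts.get i)) = g := funext hGg
      obtain ⟨t, ht, hlt, hle⟩ := hst G
        (by
          intro t ht
          obtain ⟨i, rfl⟩ := List.mem_iff_get.1 ht
          rw [hGg]
          exact hg i)
        (by
          by_contra hcon
          push Not at hcon
          apply hne
          funext i
          have h1 := hcon _ (List.get_mem verts i)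
          rw [hGg] at h1
          exact le_antisymm (hg i) h1)
      obtain ⟨i, rfl⟩ := List.mem_iff_get.1 ht
      refine ⟨i, ?_, ?_⟩
      · rw [← hGg]; exact hlt
      · rw [hout, ← hGf, hch]; exact hle

end lists

end Pool.Agent.Work.MP_5100e0_lc
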