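import Pool.Agent.Work.MP_5100e0_lc.Static
import Mathlib.Tactic

/-!
Subdividing all edges of a multigraph gives a simple digraph with an equivalent chip-firing
reachability problem.
-/

namespace Pool.Agent.Work.MP_5100e0_lc

set_option linter.unusedSimpArgs false
set_option linter.unusedSectionVars false

variable {β : Type} [DecidableEq β]

/-- Names of the vertices of the subdivided graph. -/
abbrev Tag (β : Type) := Bool × β × β × ℕ

/-- The vertex `v`. -/
def sv (v : β) : Tag β := (false, v, v, 0)
/-- The midpoint of the `i`-th edge from `v` to `w`. -/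
def se (v w : β) (i : ℕ) : Tag β := (true, v, w, i)

/-- Adjacency in the subdivided graph. -/
def adj (p q : Tag β) : ℕ :=
  if p.1 = false ∧ q.1 = true ∧ q.2.1 = p.2.1 then 1
  else if p.1 = true ∧ q.1 = false ∧ p.2.2.1 = q.2.1 then 1 else 0

theorem adj_self (p : Tag β) : adj p p = 0 := by
  rcases p with ⟨b, v, w, i⟩
  cases b <;> simp [adj]

theorem adj_le (p q : Tag β) : adj p q ≤ 1 := by
  unfold adj
  split_ifs <;> simp

@[simp] theorem adj_sv_sv (v w : β) : adj (sv v) (sv w) = 0 := by simp [adj, sv]
@[simp] theorem adj_se_se (v w v' w' : β) (i j : ℕ) : adj (se v w i) (se v' w' j) = 0 := by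
  simp [adj, se]
@[simp] theorem adj_sv_se (u v w : β) (i : ℕ) :
    adj (sv u) (se v w i) = if v = u then 1 else 0 := by simp [adj, sv, se]
@[simp] theorem adj_se_sv (u v w : β) (i : ℕ) :
    adj (se v w i) (sv u) = if w = u then 1 else 0 := by simp [adj, sv, se]

/-- The vertices of the subdivided graph. -/
def vertsOf (base : List β) (mult : β → β → ℕ) : List (Tag β) :=
  base.map sv ++ base.flatMap (fun v => base.flatMap (fun w =>
    (List.range (mult v w)).map (fun i => se v w i)))

theorem mem_vertsOf {base : List β} {mult : β → β → ℕ} {t : Tag β} :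
    t ∈ vertsOf base mult ↔ (∃ v ∈ base, t = sv v) ∨
      (∃ v ∈ base, ∃ w ∈ base, ∃ i < mult v w, t = se v w i) := by
  simp only [vertsOf, List.mem_append, List.mem_map, List.mem_flatMap, List.mem_range]
  constructor
  · rintro (⟨v, hv, rfl⟩ | ⟨v, hv, w, hw, i, hi, rfl⟩)
    · exact .inl ⟨v, hv, rfl⟩
    · exact .inr ⟨v, hv, w, hw, i, hi, rfl⟩
  · rintro (⟨v, hv, rfl⟩ | ⟨v, hv, w, hw, i, hi, rfl⟩)
    · exact .inl ⟨v, hv, rfl⟩
    · exact .inr ⟨v, hv, w, hw, i, hi, rfl⟩

theorem nodup_vertsOf {base : List β} (hb : base.Nodup) (mult : β → β → ℕ) :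
    (vertsOf base mult).Nodup := by
  unfold vertsOf
  rw [List.nodup_append]
  refine ⟨hb.map (fun v w h => by simpa [sv] using h), ?_, ?_⟩
  · rw [List.nodup_flatMap]
    refine ⟨fun v _ => ?_, ?_⟩
    · rw [List.nodup_flatMap]
      refine ⟨fun w _ => List.nodup_range.map (fun i j h => by simpa [se] using h), ?_⟩
      refine hb.imp ?_
      intro w w' hne
      simp only [Function.onFun, List.disjoint_left, List.mem_map]
      rintro t ⟨i, _, rfl⟩ ⟨j, _, h⟩
      simp [se] at h
      exact hne h.1.symm
    · refine hb.imp ?_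
      intro v v' hne
      simp only [Function.onFun, List.disjoint_left, List.mem_flatMap, List.mem_map]
      rintro t ⟨w, _, i, _, rfl⟩ ⟨w', _, j, _, h⟩
      simp [se] at h
      exact hne h.1.symm
  · intro t ht t' ht'
    simp only [List.mem_map, List.mem_flatMap] at ht ht'
    obtain ⟨v, _, rfl⟩ := ht
    obtain ⟨v', _, w', _, i, _, rfl⟩ := ht'
    simp [sv, se]

theorem sum_vertsOf {M : Type} [AddCommMonoid M] (base : List β) (mult : β → β → ℕ)
    (F : Tag β → M) :
    ((vertsOf base mult).map F).sum = (base.map (fun v => F (sv v))).sum +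
      (base.map (fun v => (base.map (fun w =>
        ((List.range (mult v w)).map (fun i => F (se v w i))).sum)).sum)).sum := by
  have h1 : ∀ (l : List β) (f : β → List (Tag β)),
      ((l.flatMap f).map F).sum = (l.map (fun v => ((f v).map F).sum)).sum := by
    intro l f
    induction l with
    | nil => simp
    | cons a l ih => simp [List.sum_append, ih]
  simp only [vertsOf, List.map_append, List.sum_append, List.map_map, h1]
  rfl

theorem sum_ite_mem {M : Type} [AddCommMonoid M] {base : List β} (hb : base.Nodup) {w : β}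
    (hw : w ∈ base) (f : β → M) :
    (base.map (fun u => if u = w then f u else 0)).sum = f w := by
  rw [← List.sum_toFinset _ hb]
  simp [hw]

theorem sum_ite_mem' {M : Type} [AddCommMonoid M] {base : List β} (hb : base.Nodup) {w : β}
    (hw : w ∈ base) (f : β → M) :
    (base.map (fun u => if w = u then f u else 0)).sum = f w := by
  rw [← List.sum_toFinset _ hb]
  simp [hw]

/-- Total multiplicity of the edges leaving `v`. -/
def degOf (base : List β) (mult : β → β → ℕ) (v : β) : ℕ := (base.map (mult v)).sum

theorem out_sv {base : List β} (hb : base.Nodup) (mult : β → β → ℕ) {v : β} (hv : v ∈ base) :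
    ((vertsOf base mult).map (adj (sv v))).sum = degOf base mult v := by
  rw [sum_vertsOf]
  simp only [adj_sv_sv, adj_sv_se]
  have : ∀ u, (base.map (fun w => ((List.range (mult u w)).map
      (fun _ => if u = v then 1 else 0)).sum)).sum =
      if u = v then degOf base mult u else 0 := by
    intro u
    by_cases h : u = v
    · simp [h, degOf]
    · simp [h]
  simp only [this]
  rw [sum_ite_mem hb hv]
  simp

theorem out_se {base : List β} (hb : base.Nodup) (mult : β → β → ℕ) {v w : β} (hw : w ∈ base)
    (i : ℕ) : ((vertsOf base mult).map (adj (se v w i))).sum = 1 := by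
  rw [sum_vertsOf]
  simp only [adj_se_sv, adj_se_se]
  rw [sum_ite_mem' hb hw (fun _ => 1)]
  simp

theorem in_sv {base : List β} (hb : base.Nodup) (mult : β → β → ℕ) {w : β} (hw : w ∈ base)
    (G : Tag β → ℕ) :
    ((vertsOf base mult).map (fun u => (adj u (sv w) : ℤ) * G u)).sum =
      (base.map (fun v => ((List.range (mult v w)).map (fun i => (G (se v w i) : ℤ))).sum)).sum := by
  rw [sum_vertsOf]
  simp only [adj_sv_sv, adj_se_sv]
  have : ∀ v, (base.map (fun w' => ((List.range (mult v w')).map
      (fun i => (((if w' = w then 1 else 0 : ℕ) : ℤ) * (G (se v w' i) : ℤ)))).sum)).sum =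
      ((List.range (mult v w)).map (fun i => (G (se v w i) : ℤ))).sum := by
    intro v
    have h2 : ∀ w', ((List.range (mult v w')).map
      (fun i => (((if w' = w then 1 else 0 : ℕ) : ℤ) * (G (se v w' i) : ℤ)))).sum =
      if w' = w then ((List.range (mult v w')).map (fun i => (G (se v w' i) : ℤ))).sum else 0 := by
      intro w'
      by_cases h : w' = w
      · simp [h]
      · simp [h]
    simp only [h2]
    rw [sum_ite_mem hb hw (fun w' =>
      ((List.range (mult v w')).map (fun i => (G (se v w' i) : ℤ))).sum)]
  simp only [this]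
  simp

theorem in_se {base : List β} (hb : base.Nodup) (mult : β → β → ℕ) {v : β} (hv : v ∈ base)
    (w : β) (i : ℕ) (G : Tag β → ℕ) :
    ((vertsOf base mult).map (fun u => (adj u (se v w i) : ℤ) * G u)).sum = G (sv v) := by
  rw [sum_vertsOf]
  simp only [adj_sv_se, adj_se_se]
  have : (base.map (fun u => (((if v = u then 1 else 0 : ℕ) : ℤ) * (G (sv u) : ℤ)))).sum =
      (G (sv v) : ℤ) := by
    rw [← sum_ite_mem' hb hv (fun u => (G (sv u) : ℤ))]
    congr 1
    apply List.map_congr_left
    intro u _
    by_cases h : v = u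
    · simp [h]
    · simp [h]
  rw [this]
  simp

/-- The chips on the vertex `w` of the multigraph after firing `g`. -/
def mchips (base : List β) (mult : β → β → ℕ) (x : β → ℤ) (g : β → ℕ) (w : β) : ℤ :=
  x w + (base.map (fun v => (mult v w : ℤ) * g v)).sum - (degOf base mult w : ℤ) * g w

/-- The distribution on the subdivided graph. -/
def lift (x : β → ℤ) : Tag β → ℤ := fun t => if t.1 = false then x t.2.1 else 0

@[simp] theorem lift_sv (x : β → ℤ) (v : β) : lift x (sv v) = x v := by simp [lift, sv]
@[simp] theorem lift_se (x : β → ℤ) (v w : β) (i : ℕ) : lift x (se v w i) = 0 := by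
  simp [lift, se]

theorem reach_subdiv_iff (base : List β) (hb : base.Nodup) (mult : β → β → ℕ) (x y : β → ℤ) :
    Reach (fun i j : Fin (vertsOf base mult).length =>
        adj ((vertsOf base mult).get i) ((vertsOf base mult).get j))
      (fun i => lift x ((vertsOf base mult).get i)) (fun i => lift y ((vertsOf base mult).get i)) ↔
    ∃ f : β → ℕ, (∀ v ∈ base, y v = mchips base mult x f v) ∧
      ∀ g : β → ℕ, (∀ v ∈ base, g v ≤ f v) → (∃ v ∈ base, g v < f v) →
        ∃ v ∈ base, g v < f v ∧ (degOf base mult v : ℤ) ≤ mchips base mult x g v := by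
  rw [reach_list_iff _ (nodup_vertsOf hb mult) adj adj_self (lift x) (lift y)]
  have hsv : ∀ (z : β → ℤ) (G : Tag β → ℕ) (w), w ∈ base →
      chipsL (vertsOf base mult) adj (lift z) G (sv w) = z w +
      (base.map (fun v => ((List.range (mult v w)).map (fun i => (G (se v w i) : ℤ))).sum)).sum -
      (degOf base mult w : ℤ) * G (sv w) := by
    intro z G w hw
    simp only [chipsL, in_sv hb mult hw, out_sv hb mult hw, lift_sv]
  have hse : ∀ (z : β → ℤ) (G : Tag β → ℕ) (v w i), v ∈ base → w ∈ base →
      chipsL (vertsOf base mult) adj (lift z) G (se v w i) = (G (sv v) : ℤ) - G (se v w i) := by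
    intro z G v w i hv hw
    simp only [chipsL, in_se hb mult hv, out_se hb mult hw, lift_se]
    simp
  constructor
  · rintro ⟨F, hF, hst⟩
    have hFe : ∀ v ∈ base, ∀ w ∈ base, ∀ i < mult v w, F (se v w i) = F (sv v) := by
      intro v hv w hw i hi
      have := hF (se v w i) (mem_vertsOf.2 (.inr ⟨v, hv, w, hw, i, hi, rfl⟩))
      rw [hse x F v w i hv hw] at this
      simp only [lift_se] at this
      omega
    have hsum : ∀ w ∈ base, ∀ (G : Tag β → ℕ) (g : β → ℕ), (∀ v ∈ base, ∀ i < mult v w,
        G (se v w i) = g v) →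
        (base.map (fun v => ((List.range (mult v w)).map (fun i => (G (se v w i) : ℤ))).sum)).sum =
        (base.map (fun v => (mult v w : ℤ) * g v)).sum := by
      intro w hw G g h
      congr 1
      apply List.map_congr_left
      intro v hv
      have : (List.range (mult v w)).map (fun i => (G (se v w i) : ℤ)) =
          (List.range (mult v w)).map (fun _ => (g v : ℤ)) := by
        apply List.map_congr_left
        intro i hi
        rw [h v hv i (List.mem_range.1 hi)]
      rw [this]
      simp
    refine ⟨fun v => F (sv v), ?_, ?_⟩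
    · intro v hv
      have := hF (sv v) (mem_vertsOf.2 (.inl ⟨v, hv, rfl⟩))
      rw [hsv x F v hv, hsum v hv F (fun v => F (sv v)) (fun u hu i hi => hFe u hu v hv i hi)] at this
      simpa [mchips] using this
    · intro g hg hne
      set G : Tag β → ℕ := fun t => g t.2.1 with hG
      obtain ⟨t, ht, hlt, hle⟩ := hst G (by
          intro t ht
          rcases mem_vertsOf.1 ht with ⟨v, hv, rfl⟩ | ⟨v, hv, w, hw, i, hi, rfl⟩
          · exact hg v hv
          · rw [hFe v hv w hw i hi]
            exact hg v hv)
        (by
          obtain ⟨v, hv, hlt⟩ := hne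
          exact ⟨sv v, mem_vertsOf.2 (.inl ⟨v, hv, rfl⟩), hlt⟩)
      rcases mem_vertsOf.1 ht with ⟨v, hv, rfl⟩ | ⟨v, hv, w, hw, i, hi, rfl⟩
      · refine ⟨v, hv, hlt, ?_⟩
        rw [hsv x G v hv, out_sv hb mult hv,
          hsum v hv G g (fun u hu i hi => rfl)] at hle
        exact hle
      · exfalso
        rw [hse x G v w i hv hw, out_se hb mult hw] at hle
        simp [hG, sv, se] at hle
  · rintro ⟨f, hf, hst⟩
    have hsum : ∀ w ∈ base, ∀ (G : Tag β → ℕ) (g : β → ℕ), (∀ v ∈ base, ∀ i < mult v w,
        G (se v w i) = g v) →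
        (base.map (fun v => ((List.range (mult v w)).map (fun i => (G (se v w i) : ℤ))).sum)).sum =
        (base.map (fun v => (mult v w : ℤ) * g v)).sum := by
      intro w hw G g h
      congr 1
      apply List.map_congr_left
      intro v hv
      have : (List.range (mult v w)).map (fun i => (G (se v w i) : ℤ)) =
          (List.range (mult v w)).map (fun _ => (g v : ℤ)) := by
        apply List.map_congr_left
        intro i hi
        rw [h v hv i (List.mem_range.1 hi)]
      rw [this]
      simp
    obtain ⟨F, hF⟩ : ∃ F : Tag β → ℕ, F = fun t => f t.2.1 := ⟨_, rfl⟩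
    have hFs : ∀ v, F (sv v) = f v := by intro v; rw [hF]; rfl
    have hFe : ∀ v w i, F (se v w i) = f v := by intro v w i; rw [hF]; rfl
    refine ⟨F, ?_, ?_⟩
    · intro t ht
      rcases mem_vertsOf.1 ht with ⟨v, hv, rfl⟩ | ⟨v, hv, w, hw, i, hi, rfl⟩
      · rw [hsv x F v hv, hsum v hv F f (fun u hu i hi => hFe _ _ _), hFs]
        simpa [mchips] using hf v hv
      · rw [hse x F v w i hv hw, lift_se, hFs, hFe]
        simp
    · intro G hG hne
      by_cases hcase : ∃ v ∈ base, ∃ w ∈ base, ∃ i < mult v w, G (se v w i) < G (sv v)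
      · obtain ⟨v, hv, w, hw, i, hi, hlt⟩ := hcase
        refine ⟨se v w i, mem_vertsOf.2 (.inr ⟨v, hv, w, hw, i, hi, rfl⟩), ?_, ?_⟩
        · have := hG (sv v) (mem_vertsOf.2 (.inl ⟨v, hv, rfl⟩))
          rw [hFs] at this
          rw [hFe]
          exact lt_of_lt_of_le hlt this
        · rw [hse x G v w i hv hw, out_se hb mult hw]
          push_cast
          omega
      · push Not at hcase
        set g : β → ℕ := fun v => G (sv v) with hg
        by_cases hgf : ∃ v ∈ base, g v < f v
        · obtain ⟨v, hv, hlt, hle⟩ := hst g (fun v hv => by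
            have := hG (sv v) (mem_vertsOf.2 (.inl ⟨v, hv, rfl⟩))
            rwa [hFs] at this) hgf
          refine ⟨sv v, mem_vertsOf.2 (.inl ⟨v, hv, rfl⟩), by rw [hFs]; exact hlt, ?_⟩
          rw [hsv x G v hv, out_sv hb mult hv]
          refine hle.trans ?_
          unfold mchips
          have : (base.map (fun u => (mult u v : ℤ) * g u)).sum ≤
              (base.map (fun u => ((List.range (mult u v)).map
                (fun i => (G (se u v i) : ℤ))).sum)).sum := by
            apply List.sum_le_sum
            intro u hu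
            have : (mult u v : ℤ) * g u = ((List.range (mult u v)).map (fun _ => (g u : ℤ))).sum := by
              simp
            rw [this]
            apply List.sum_le_sum
            intro i hi
            exact_mod_cast hcase u hu v hv i (List.mem_range.1 hi)
          simp only [hg] at this ⊢
          linarith
        · exfalso
          push Not at hgf
          obtain ⟨t, ht, hlt⟩ := hne
          rcases mem_vertsOf.1 ht with ⟨v, hv, rfl⟩ | ⟨v, hv, w, hw, i, hi, rfl⟩
          · have := hgf v hv
            rw [hFs] at hlt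
            simp only [hg] at this
            omega
          · have h1 := hgf v hv
            have h2 := hcase v hv w hw i hi
            rw [hFe] at hlt
            simp only [hg] at h1
            omega

end Pool.Agent.Work.MP_5100e0_lc
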